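import Pool.Agent.L7h7.GJ.Stm

set_option autoImplicit false

namespace Pool.Agent.L7h7.GJ

/-- the angle in `(0, π)` with a given cotangent -/
theorem ac_spec (x : ℝ) :
    ∃ α : ℝ, 0 < α ∧ α < Real.pi ∧ 0 < Real.sin α ∧ Real.cos α = x * Real.sin α := by
  refine ⟨Real.pi / 2 - Real.arctan x, ?_, ?_, ?_, ?_⟩
  · have := Real.arctan_lt_pi_div_two x
    linarith
  · have := Real.neg_pi_div_two_lt_arctan x
    linarith
  · rw [Real.sin_pi_div_two_sub]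
    exact Real.cos_arctan_pos x
  · rw [Real.sin_pi_div_two_sub, Real.cos_pi_div_two_sub]
    have h1 := Real.tan_arctan x
    have h2 := Real.cos_arctan_pos x
    rw [Real.tan_eq_sin_div_cos, div_eq_iff (ne_of_gt h2)] at h1
    exact h1

theorem sin2 {a b α β : ℝ} (ha : Real.cos α = a * Real.sin α) (hb : Real.cos β = b * Real.sin β) :
    Real.sin (α + β) = Real.sin α * Real.sin β * (a + b) := by
  rw [Real.sin_add, ha, hb]; ring

theorem sin3 {a b c α β γ : ℝ} (ha : Real.cos α = a * Real.sin α)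
    (hb : Real.cos β = b * Real.sin β) (hc : Real.cos γ = c * Real.sin γ) :
    Real.sin (α + β + γ) =
      Real.sin α * Real.sin β * Real.sin γ * (a * b + b * c + c * a - 1) := by
  rw [Real.sin_add, Real.sin_add, Real.cos_add, ha, hb, hc]; ring

theorem lt_pi_of {x : ℝ} (h1 : x < 2 * Real.pi) (h : 0 < Real.sin x) : x < Real.pi := by
  by_contra hc
  push Not at hc
  have : 0 ≤ Real.sin (x - Real.pi) :=
    Real.sin_nonneg_of_nonneg_of_le_pi (by linarith) (by linarith)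
  rw [Real.sin_sub_pi] at this
  linarith

theorem le_pi_of {x : ℝ} (h1 : x < 2 * Real.pi) (h : 0 ≤ Real.sin x) : x ≤ Real.pi := by
  by_contra hc
  push Not at hc
  have : 0 < Real.sin (x - Real.pi) :=
    Real.sin_pos_of_pos_of_lt_pi (by linarith) (by linarith)
  rw [Real.sin_sub_pi] at this
  linarith

theorem pi_le_of {x : ℝ} (h1 : 0 < x) (h : Real.sin x ≤ 0) : Real.pi ≤ x := by
  by_contra hc
  push Not at hc
  have := Real.sin_pos_of_pos_of_lt_pi h1 hc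
  linarith

theorem pi_lt_of {x : ℝ} (h1 : 0 < x) (h : Real.sin x < 0) : Real.pi < x := by
  by_contra hc
  push Not at hc
  have := Real.sin_nonneg_of_nonneg_of_le_pi h1.le hc
  linarith

/-- three angles with a small sum -/
theorem sum3_lt {a b c α β γ : ℝ} (ha : 0 < α ∧ α < Real.pi ∧ 0 < Real.sin α ∧
      Real.cos α = a * Real.sin α)
    (hb : 0 < β ∧ β < Real.pi ∧ 0 < Real.sin β ∧ Real.cos β = b * Real.sin β)
    (hc : 0 < γ ∧ γ < Real.pi ∧ 0 < Real.sin γ ∧ Real.cos γ = c * Real.sin γ)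
    (hab : 0 < a + b) (h : 1 < a * b + b * c + c * a) : α + β + γ < Real.pi := by
  have h1 : α + β < Real.pi := by
    apply lt_pi_of (by linarith [ha.2.1, hb.2.1])
    rw [sin2 ha.2.2.2 hb.2.2.2]
    have := ha.2.2.1
    have := hb.2.2.1
    positivity
  apply lt_pi_of (by linarith [hc.2.1])
  rw [sin3 ha.2.2.2 hb.2.2.2 hc.2.2.2]
  have := ha.2.2.1
  have := hb.2.2.1
  have := hc.2.2.1
  have h2 : 0 < a * b + b * c + c * a - 1 := by linarith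
  positivity

theorem sum3_le {a b c α β γ : ℝ} (ha : 0 < α ∧ α < Real.pi ∧ 0 < Real.sin α ∧
      Real.cos α = a * Real.sin α)
    (hb : 0 < β ∧ β < Real.pi ∧ 0 < Real.sin β ∧ Real.cos β = b * Real.sin β)
    (hc : 0 < γ ∧ γ < Real.pi ∧ 0 < Real.sin γ ∧ Real.cos γ = c * Real.sin γ)
    (hab : 0 < a + b) (h : 1 ≤ a * b + b * c + c * a) : α + β + γ ≤ Real.pi := by
  have h1 : α + β < Real.pi := by
    apply lt_pi_of (by linarith [ha.2.1, hb.2.1])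
    rw [sin2 ha.2.2.2 hb.2.2.2]
    have := ha.2.2.1
    have := hb.2.2.1
    positivity
  apply le_pi_of (by linarith [hc.2.1])
  rw [sin3 ha.2.2.2 hb.2.2.2 hc.2.2.2]
  have := ha.2.2.1
  have := hb.2.2.1
  have := hc.2.2.1
  have h2 : 0 ≤ a * b + b * c + c * a - 1 := by linarith
  positivity

theorem le_sum3 {a b c α β γ : ℝ} (ha : 0 < α ∧ α < Real.pi ∧ 0 < Real.sin α ∧
      Real.cos α = a * Real.sin α)
    (hb : 0 < β ∧ β < Real.pi ∧ 0 < Real.sin β ∧ Real.cos β = b * Real.sin β)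
    (hc : 0 < γ ∧ γ < Real.pi ∧ 0 < Real.sin γ ∧ Real.cos γ = c * Real.sin γ)
    (h : a * b + b * c + c * a ≤ 1) : Real.pi ≤ α + β + γ := by
  apply pi_le_of (by linarith [hc.1, ha.1, hb.1])
  rw [sin3 ha.2.2.2 hb.2.2.2 hc.2.2.2]
  have h1 := ha.2.2.1
  have h2 := hb.2.2.1
  have h3 := hc.2.2.1
  have h4 : 0 ≤ Real.sin α * Real.sin β * Real.sin γ := by positivity
  have h5 : a * b + b * c + c * a - 1 ≤ 0 := by linarith
  exact mul_nonpos_of_nonneg_of_nonpos h4 h5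

theorem lt_sum3 {a b c α β γ : ℝ} (ha : 0 < α ∧ α < Real.pi ∧ 0 < Real.sin α ∧
      Real.cos α = a * Real.sin α)
    (hb : 0 < β ∧ β < Real.pi ∧ 0 < Real.sin β ∧ Real.cos β = b * Real.sin β)
    (hc : 0 < γ ∧ γ < Real.pi ∧ 0 < Real.sin γ ∧ Real.cos γ = c * Real.sin γ)
    (h : 0 < a + b → a * b + b * c + c * a < 1) : Real.pi < α + β + γ := by
  have h1 := ha.2.2.1
  have h2 := hb.2.2.1
  have h3 := hc.2.2.1
  by_cases hab : 0 < a + b
  · apply pi_lt_of (by linarith [hc.1, ha.1, hb.1])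
    rw [sin3 ha.2.2.2 hb.2.2.2 hc.2.2.2]
    have h4 : 0 < Real.sin α * Real.sin β * Real.sin γ := by positivity
    have h5 : a * b + b * c + c * a - 1 < 0 := by linarith [h hab]
    exact mul_neg_of_pos_of_neg h4 h5
  · push Not at hab
    have : Real.pi ≤ α + β := by
      apply pi_le_of (by linarith [ha.1, hb.1])
      rw [sin2 ha.2.2.2 hb.2.2.2]
      exact mul_nonpos_of_nonneg_of_nonpos (by positivity) hab
    linarith [hc.1]

/-- the vertex condition: `γ + δ + δ' < π` -/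
theorem vertex_lt {C p p' b b' γ δ δ' : ℝ} (hp : 0 < p) (hp' : 0 < p') (hb : 0 < b) (hb' : 0 < b')
    (hpp : p * p' = C ^ 2 + 1) (hbb : 1 < b * b')
    (hγ : 0 < γ ∧ γ < Real.pi ∧ 0 < Real.sin γ ∧ Real.cos γ = C * Real.sin γ)
    (hδ : 0 < δ ∧ δ < Real.pi ∧ 0 < Real.sin δ ∧ Real.cos δ = (b * p - C) * Real.sin δ)
    (hδ' : 0 < δ' ∧ δ' < Real.pi ∧ 0 < Real.sin δ' ∧ Real.cos δ' = (b' * p' - C) * Real.sin δ') :
    γ + δ + δ' < Real.pi := by
  apply sum3_lt hγ hδ hδ'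
  · have : 0 < b * p := by positivity
    linarith
  · have h1 : 0 < p * p' := by positivity
    have h2 : p * p' < (b * b') * (p * p') := by nlinarith
    nlinarith

/-- the edge condition: `π < δ + δ' + ω` -/
theorem edge_lt {Ci Cj Ck p gi gj gk q b b' c e δ δ' ω : ℝ} (hq : 0 < q) (hp : 0 < p)
    (hpi : p = Cj + Ck) (hgk : q * gk = Ci + Cj) (hgj : q * gj = Ci + Ck) (hgi : q * gi = p)
    (hC : Ci * Cj + Cj * Ck + Ck * Ci = 1) (he : 0 < e) (hce : 1 < c * e)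
    (hF : c * (b + b' - 1) ≤ b * gk + b' * gj - b * b' * gi)
    (hδ : 0 < δ ∧ δ < Real.pi ∧ 0 < Real.sin δ ∧ Real.cos δ = (b' * p - Cj) * Real.sin δ)
    (hδ' : 0 < δ' ∧ δ' < Real.pi ∧ 0 < Real.sin δ' ∧ Real.cos δ' = (b * p - Ck) * Real.sin δ')
    (hω : 0 < ω ∧ ω < Real.pi ∧ 0 < Real.sin ω ∧ Real.cos ω = (q / e - Ci) * Real.sin ω) :
    Real.pi < δ + δ' + ω := by
  apply lt_sum3 hδ hδ' hω
  intro hpos
  have hD : 0 < b + b' - 1 := by
    have : (b' * p - Cj) + (b * p - Ck) = (b + b' - 1) * p := by rw [hpi]; ring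
    rw [this] at hpos
    by_contra hc
    push Not at hc
    exact absurd hpos (not_lt.mpr (mul_nonpos_of_nonpos_of_nonneg hc hp.le))
  have h1 : 1 / e < c := by
    rw [div_lt_iff₀ he]; linarith
  have h2 : (b + b' - 1) / e < b * gk + b' * gj - b * b' * gi := by
    calc (b + b' - 1) / e = (1 / e) * (b + b' - 1) := by ring
      _ < c * (b + b' - 1) := by nlinarith
      _ ≤ _ := hF
  have h3 : (b' * p - Cj) * (b * p - Ck) + (b * p - Ck) * (q / e - Ci) +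
      (q / e - Ci) * (b' * p - Cj) =
      1 - p * (q * (b * gk + b' * gj - b * b' * gi - (b + b' - 1) / e)) := by
    have e1 : q * (b * gk + b' * gj - b * b' * gi - (b + b' - 1) / e) =
        b * (Ci + Cj) + b' * (Ci + Ck) - b * b' * p - (b + b' - 1) * (q / e) := by
      rw [← hgk, ← hgj, ← hgi]; ring
    rw [e1]
    rw [hpi]
    generalize q / e = Q
    nlinarith [hC]
  rw [h3]
  have h4 : 0 < p * (q * (b * gk + b' * gj - b * b' * gi - (b + b' - 1) / e)) := by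
    apply mul_pos hp
    apply mul_pos hq
    linarith
  linarith

theorem pair_ge {q e0 e1 e2 C0 C1 C2 g0 g1 g2 : ℝ} (he0 : 0 < e0) (he1 : 0 < e1) (he2 : 0 < e2)
    (e01 : q * g2 = C0 + C1) (e02 : q * g1 = C0 + C2) (e12 : q * g0 = C1 + C2)
    (hCC : C0 * C1 + C1 * C2 + C2 * C0 = 1)
    (F3 : e0 * e1 * g2 + e0 * e2 * g1 + e1 * e2 * g0 ≤ e0 + e1 + e2) :
    1 ≤ (q / e0 - C0) * (q / e1 - C1) + (q / e1 - C1) * (q / e2 - C2) +
      (q / e2 - C2) * (q / e0 - C0) := by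
  obtain ⟨f0, hf0⟩ : ∃ f : ℝ, f = 1 / e0 := ⟨_, rfl⟩
  obtain ⟨f1, hf1⟩ : ∃ f : ℝ, f = 1 / e1 := ⟨_, rfl⟩
  obtain ⟨f2, hf2⟩ : ∃ f : ℝ, f = 1 / e2 := ⟨_, rfl⟩
  have p0 : 0 < f0 := by rw [hf0]; positivity
  have p1 : 0 < f1 := by rw [hf1]; positivity
  have p2 : 0 < f2 := by rw [hf2]; positivity
  have m0 : f0 * e0 = 1 := by rw [hf0]; field_simp
  have m1 : f1 * e1 = 1 := by rw [hf1]; field_simp
  have m2 : f2 * e2 = 1 := by rw [hf2]; field_simp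
  have r0 : q / e0 = q * f0 := by rw [hf0]; ring
  have r1 : q / e1 = q * f1 := by rw [hf1]; ring
  have r2 : q / e2 = q * f2 := by rw [hf2]; ring
  have F : g0 * f0 + g1 * f1 + g2 * f2 ≤ f0 * f1 + f1 * f2 + f2 * f0 := by
    have h := mul_le_mul_of_nonneg_left F3 (by positivity : 0 ≤ f0 * f1 * f2)
    have h1 : f0 * f1 * f2 * (e0 * e1 * g2 + e0 * e2 * g1 + e1 * e2 * g0) =
        (f0 * e0) * (f1 * e1) * (g2 * f2) + (f0 * e0) * (f2 * e2) * (g1 * f1) +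
          (f1 * e1) * (f2 * e2) * (g0 * f0) := by ring
    have h2 : f0 * f1 * f2 * (e0 + e1 + e2) =
        (f0 * e0) * (f1 * f2) + (f1 * e1) * (f2 * f0) + (f2 * e2) * (f0 * f1) := by ring
    rw [h1, h2, m0, m1, m2] at h
    linarith
  rw [r0, r1, r2]
  have key : (q * f0 - C0) * (q * f1 - C1) + (q * f1 - C1) * (q * f2 - C2) +
      (q * f2 - C2) * (q * f0 - C0) =
      q ^ 2 * (f0 * f1 + f1 * f2 + f2 * f0) - q * (f0 * (C1 + C2) + f1 * (C0 + C2) +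
        f2 * (C0 + C1)) + (C0 * C1 + C1 * C2 + C2 * C0) := by ring
  rw [key, hCC, ← e12, ← e02, ← e01]
  have key2 : q ^ 2 * (f0 * f1 + f1 * f2 + f2 * f0) - q * (f0 * (q * g0) + f1 * (q * g1) +
        f2 * (q * g2)) + 1 =
      1 + q ^ 2 * ((f0 * f1 + f1 * f2 + f2 * f0) - (g0 * f0 + g1 * f1 + g2 * f2)) := by ring
  rw [key2]
  have := mul_nonneg (sq_nonneg q) (sub_nonneg.mpr F)
  linarith

theorem same_sign {X Y Z : ℝ} (h : 1 ≤ X * Y + Y * Z + Z * X) (hneg : X + Y ≤ 0) :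
    X + Y < 0 ∧ X + Z < 0 ∧ Y + Z < 0 := by
  have h1 : 0 < (X + Y) * (X + Z) := by
    have : (X + Y) * (X + Z) = X ^ 2 + (X * Y + Y * Z + Z * X) := by ring
    rw [this]; have := sq_nonneg X; linarith
  have h2 : 0 < (Y + X) * (Y + Z) := by
    have : (Y + X) * (Y + Z) = Y ^ 2 + (X * Y + Y * Z + Z * X) := by ring
    rw [this]; have := sq_nonneg Y; linarith
  have hXY : X + Y < 0 := by
    rcases eq_or_lt_of_le hneg with h0 | h0
    · rw [h0] at h1; linarith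
    · exact h0
  refine ⟨hXY, ?_, ?_⟩
  · by_contra hc
    push Not at hc
    have := mul_nonpos_of_nonpos_of_nonneg hneg hc
    linarith
  · by_contra hc
    push Not at hc
    have := mul_nonpos_of_nonpos_of_nonneg (by linarith : Y + X ≤ 0) hc
    linarith

theorem edge_neg {q e e' C C' g : ℝ} (hq : 0 < q) (he : 0 < e) (he' : 0 < e')
    (h1 : q * g = C + C') (h : (q / e - C) + (q / e' - C') < 0) : e + e' < g * (e * e') := by
  have h2 : q * ((e + e') / (e * e')) < q * g := by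
    rw [h1]
    have : q * ((e + e') / (e * e')) = q / e + q / e' := by
      field_simp
      ring
    rw [this]; linarith
  have h3 := lt_of_mul_lt_mul_left h2 hq.le
  rwa [div_lt_iff₀ (by positivity)] at h3

theorem pair_pos {q e0 e1 e2 C0 C1 C2 g0 g1 g2 : ℝ} (hq : 0 < q) (he0 : 0 < e0) (he1 : 0 < e1)
    (he2 : 0 < e2)
    (e01 : q * g2 = C0 + C1) (e02 : q * g1 = C0 + C2) (e12 : q * g0 = C1 + C2)
    (F3 : e0 * e1 * g2 + e0 * e2 * g1 + e1 * e2 * g0 ≤ e0 + e1 + e2)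
    (hpair : 1 ≤ (q / e0 - C0) * (q / e1 - C1) + (q / e1 - C1) * (q / e2 - C2) +
      (q / e2 - C2) * (q / e0 - C0)) : 0 < (q / e0 - C0) + (q / e1 - C1) := by
  by_contra hneg
  push Not at hneg
  obtain ⟨h1, h2, h3⟩ := same_sign hpair hneg
  have m01 := edge_neg hq he0 he1 e01 h1
  have m02 := edge_neg hq he0 he2 e02 h2
  have m12 := edge_neg hq he1 he2 e12 h3
  linarith

/-- the strict case -/
theorem alg0 (g0 g1 g2 b01 b02 b10 b12 b20 b21 c0 c1 c2 e0 e1 e2 : ℝ)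
    (hg0 : 0 < g0) (hg1 : 0 < g1) (hg2 : 0 < g2)
    (hb01 : 0 < b01) (hb02 : 0 < b02) (hb10 : 0 < b10) (hb12 : 0 < b12) (hb20 : 0 < b20)
    (hb21 : 0 < b21) (he0 : 0 < e0) (he1 : 0 < e1) (he2 : 0 < e2)
    (hΔ : g0 ^ 2 + g1 ^ 2 + g2 ^ 2 < 2 * (g0 * g1 + g1 * g2 + g2 * g0))
    (F0 : c0 * (b01 + b02 - 1) ≤ b01 * g2 + b02 * g1 - b01 * b02 * g0)
    (F1 : c1 * (b10 + b12 - 1) ≤ b10 * g2 + b12 * g0 - b10 * b12 * g1)
    (F2 : c2 * (b20 + b21 - 1) ≤ b20 * g1 + b21 * g0 - b20 * b21 * g2)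
    (F3 : e0 * e1 * g2 + e0 * e2 * g1 + e1 * e2 * g0 ≤ e0 + e1 + e2)
    (h01 : 1 < b01 * b10) (h02 : 1 < b02 * b20) (h12 : 1 < b12 * b21)
    (k0 : 1 < c0 * e0) (k1 : 1 < c1 * e1) (k2 : 1 < c2 * e2) : False := by
  obtain ⟨D, hD, hDD⟩ : ∃ D : ℝ, 0 < D ∧
      D ^ 2 = 2 * (g0 * g1 + g1 * g2 + g2 * g0) - (g0 ^ 2 + g1 ^ 2 + g2 ^ 2) := by
    refine ⟨Real.sqrt (2 * (g0 * g1 + g1 * g2 + g2 * g0) - (g0 ^ 2 + g1 ^ 2 + g2 ^ 2)), ?_, ?_⟩
    · exact Real.sqrt_pos.mpr (by linarith)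
    · exact Real.sq_sqrt (by linarith)
  obtain ⟨q, hq⟩ : ∃ q : ℝ, q = 2 / D := ⟨_, rfl⟩
  have hqpos : 0 < q := by rw [hq]; positivity
  have hqD : q * D = 2 := by rw [hq]; field_simp
  obtain ⟨C0, hC0⟩ : ∃ C : ℝ, C = q * ((g1 + g2 - g0) / 2) := ⟨_, rfl⟩
  obtain ⟨C1, hC1⟩ : ∃ C : ℝ, C = q * ((g0 + g2 - g1) / 2) := ⟨_, rfl⟩
  obtain ⟨C2, hC2⟩ : ∃ C : ℝ, C = q * ((g0 + g1 - g2) / 2) := ⟨_, rfl⟩
  have e01 : q * g2 = C0 + C1 := by rw [hC0, hC1]; ring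
  have e02 : q * g1 = C0 + C2 := by rw [hC0, hC2]; ring
  have e12 : q * g0 = C1 + C2 := by rw [hC1, hC2]; ring
  have hCC : C0 * C1 + C1 * C2 + C2 * C0 = 1 := by
    have h4 : q ^ 2 * D ^ 2 = 4 := by
      calc q ^ 2 * D ^ 2 = (q * D) ^ 2 := by ring
        _ = 4 := by rw [hqD]; norm_num
    rw [hDD] at h4
    rw [hC0, hC1, hC2]
    nlinarith
  have hp0 : 0 < q * g0 := by positivity
  have hp1 : 0 < q * g1 := by positivity
  have hp2 : 0 < q * g2 := by positivity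
  have q12 : (q * g1) * (q * g2) = C0 ^ 2 + 1 := by rw [e02, e01]; linear_combination hCC
  have q02 : (q * g0) * (q * g2) = C1 ^ 2 + 1 := by rw [e12, e01]; linear_combination hCC
  have q01 : (q * g0) * (q * g1) = C2 ^ 2 + 1 := by rw [e12, e02]; linear_combination hCC
  have s1 : q * g2 = C1 + C0 := by rw [e01]; ring
  have s2 : q * g1 = C2 + C0 := by rw [e02]; ring
  have s3 : q * g0 = C2 + C1 := by rw [e12]; ring
  have t1 : C1 * C0 + C0 * C2 + C2 * C1 = 1 := by linear_combination hCC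
  have t2 : C2 * C0 + C0 * C1 + C1 * C2 = 1 := by linear_combination hCC
  obtain ⟨γ0, hγ0⟩ := ac_spec C0
  obtain ⟨γ1, hγ1⟩ := ac_spec C1
  obtain ⟨γ2, hγ2⟩ := ac_spec C2
  obtain ⟨δ01, hδ01⟩ := ac_spec (b02 * (q * g0) - C1)
  obtain ⟨δ02, hδ02⟩ := ac_spec (b01 * (q * g0) - C2)
  obtain ⟨δ10, hδ10⟩ := ac_spec (b12 * (q * g1) - C0)
  obtain ⟨δ12, hδ12⟩ := ac_spec (b10 * (q * g1) - C2)
  obtain ⟨δ20, hδ20⟩ := ac_spec (b21 * (q * g2) - C0)
  obtain ⟨δ21, hδ21⟩ := ac_spec (b20 * (q * g2) - C1)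
  obtain ⟨ω0, hω0⟩ := ac_spec (q / e0 - C0)
  obtain ⟨ω1, hω1⟩ := ac_spec (q / e1 - C1)
  obtain ⟨ω2, hω2⟩ := ac_spec (q / e2 - C2)
  -- vertices
  have v0 : γ0 + δ10 + δ20 < Real.pi :=
    vertex_lt hp1 hp2 hb12 hb21 q12 h12 hγ0 hδ10 hδ20
  have v1 : γ1 + δ01 + δ21 < Real.pi :=
    vertex_lt hp0 hp2 hb02 hb20 q02 h02 hγ1 hδ01 hδ21
  have v2 : γ2 + δ02 + δ12 < Real.pi :=
    vertex_lt hp0 hp1 hb01 hb10 q01 h01 hγ2 hδ02 hδ12
  have vγ : Real.pi ≤ γ0 + γ1 + γ2 := le_sum3 hγ0 hγ1 hγ2 hCC.le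
  -- edges
  have w0 : Real.pi < δ01 + δ02 + ω0 :=
    edge_lt (Ci := C0) (Cj := C1) (Ck := C2) (gi := g0) (gj := g1) (gk := g2) hqpos hp0 e12 e01 e02
      rfl hCC he0 k0 F0 hδ01 hδ02 hω0
  have w1 : Real.pi < δ10 + δ12 + ω1 :=
    edge_lt (Ci := C1) (Cj := C0) (Ck := C2) (gi := g1) (gj := g0) (gk := g2) hqpos hp1 e02
      s1 e12 rfl t1 he1 k1 F1 hδ10 hδ12 hω1
  have w2 : Real.pi < δ20 + δ21 + ω2 :=
    edge_lt (Ci := C2) (Cj := C0) (Ck := C1) (gi := g2) (gj := g0) (gk := g1) hqpos hp2 e01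
      s2 s3 rfl t2 he2 k2 F2 hδ20 hδ21 hω2
  -- the angles at the interior point
  have hpair := pair_ge he0 he1 he2 e01 e02 e12 hCC F3
  have hpos := pair_pos hqpos he0 he1 he2 e01 e02 e12 F3 hpair
  have hω : ω0 + ω1 + ω2 ≤ Real.pi := sum3_le hω0 hω1 hω2 hpos hpair
  clear hpair hpos hγ0 hγ1 hγ2 hδ01 hδ02 hδ10 hδ12 hδ20 hδ21 hω0 hω1 hω2 F0 F1 F2 F3 h01 h02 h12 k0
    k1 k2 q12 q02 q01 hCC e01 e02 e12 hΔ hDD
  linarith

theorem ex4 {K1 K2 K3 K4 S1 S2 S3 S4 : ℝ} (hK1 : 0 < K1) (hK2 : 0 < K2) (hK3 : 0 < K3)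
    (hK4 : 0 < K4) (hS1 : 0 < S1) (hS2 : 0 < S2) (hS3 : 0 < S3) (hS4 : 0 < S4) :
    ∃ τ : ℝ, 0 < τ ∧ τ * K1 ≤ S1 ∧ τ * K2 ≤ S2 ∧ τ * K3 ≤ S3 ∧ τ * K4 ≤ S4 := by
  refine ⟨min (min (S1 / K1) (S2 / K2)) (min (S3 / K3) (S4 / K4)), ?_, ?_, ?_, ?_, ?_⟩
  · refine lt_min (lt_min ?_ ?_) (lt_min ?_ ?_) <;> positivity
  · rw [← le_div_iff₀ hK1]
    exact (min_le_left _ _).trans (min_le_left _ _)
  · rw [← le_div_iff₀ hK2]
    exact (min_le_left _ _).trans (min_le_right _ _)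
  · rw [← le_div_iff₀ hK3]
    exact (min_le_right _ _).trans (min_le_left _ _)
  · rw [← le_div_iff₀ hK4]
    exact (min_le_right _ _).trans (min_le_right _ _)

theorem shrinkF {t τ b b' c g g' g'' : ℝ} (ht : 0 < t) (ht1 : t < 1) (hτ : 0 < τ) (hb : 0 < b)
    (hb' : 0 < b') (hF : c * (b + b' - 1) ≤ b * g' + b' * g'' - b * b' * g)
    (h : τ * (b * b') ≤ t * (1 - t) * (b * g' + b' * g'' + c)) :
    t * c * (t * b + t * b' - 1) ≤
      t * b * (g' + τ) + t * b' * (g'' + τ) - t * b * (t * b') * (g + τ) := by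
  have h1 : t * b * (g' + τ) + t * b' * (g'' + τ) - t * b * (t * b') * (g + τ) -
      t * c * (t * b + t * b' - 1) =
      t ^ 2 * (b * g' + b' * g'' - b * b' * g - c * (b + b' - 1)) +
      (t * (1 - t) * (b * g' + b' * g'' + c) - τ * (b * b')) + τ * (b * b') * (1 - t ^ 2) +
      τ * (t * b + t * b') := by ring
  have h2 : 0 ≤ t ^ 2 * (b * g' + b' * g'' - b * b' * g - c * (b + b' - 1)) :=
    mul_nonneg (sq_nonneg t) (by linarith)
  have h3 : 0 ≤ τ * (b * b') * (1 - t ^ 2) := by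
    apply mul_nonneg (by positivity)
    nlinarith
  have h4 : 0 ≤ τ * (t * b + t * b') := by positivity
  linarith

theorem shrinkP {t P x y : ℝ} (hP : 1 < t ^ 2 * P) (h : P ≤ x * y) :
    1 < t * x * (t * y) := by
  have : t ^ 2 * P ≤ t ^ 2 * (x * y) := mul_le_mul_of_nonneg_left h (sq_nonneg t)
  calc 1 < t ^ 2 * P := hP
    _ ≤ t ^ 2 * (x * y) := this
    _ = t * x * (t * y) := by ring

theorem s_ALG : S_ALG := by
  intro g0 g1 g2 b01 b02 b10 b12 b20 b21 c0 c1 c2 e0 e1 e2 hg0 hg1 hg2 hb01 hb02 hb10 hb12 hb20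
    hb21 hc0 hc1 hc2 he0 he1 he2 hΔ F0 F1 F2 F3 h01 h02 h12 k0 k1 k2
  obtain ⟨P, hP, p1, p2, p3, p4, p5, p6⟩ : ∃ P : ℝ, 1 < P ∧ P ≤ b01 * b10 ∧ P ≤ b02 * b20 ∧
      P ≤ b12 * b21 ∧ P ≤ c0 * e0 ∧ P ≤ c1 * e1 ∧ P ≤ c2 * e2 := by
    refine ⟨min (min (min (b01 * b10) (b02 * b20)) (b12 * b21))
      (min (min (c0 * e0) (c1 * e1)) (c2 * e2)), ?_, ?_, ?_, ?_, ?_, ?_, ?_⟩
    · exact lt_min (lt_min (lt_min h01 h02) h12) (lt_min (lt_min k0 k1) k2)
    · exact (min_le_left _ _).trans ((min_le_left _ _).trans (min_le_left _ _))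
    · exact (min_le_left _ _).trans ((min_le_left _ _).trans (min_le_right _ _))
    · exact (min_le_left _ _).trans (min_le_right _ _)
    · exact (min_le_right _ _).trans ((min_le_left _ _).trans (min_le_left _ _))
    · exact (min_le_right _ _).trans ((min_le_left _ _).trans (min_le_right _ _))
    · exact (min_le_right _ _).trans (min_le_right _ _)
  obtain ⟨t, ht, ht1, htP⟩ : ∃ t : ℝ, 0 < t ∧ t < 1 ∧ 1 < t ^ 2 * P := by
    have hP0 : 0 < P := by linarith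
    refine ⟨(P + 1) / (2 * P), by positivity, ?_, ?_⟩
    · rw [div_lt_one (by positivity)]; linarith
    · have : ((P + 1) / (2 * P)) ^ 2 * P = (P + 1) ^ 2 / (4 * P) := by
        field_simp
        ring
      rw [this, lt_div_iff₀ (by positivity)]
      have : 0 < (P - 1) ^ 2 := by
        have : 0 < P - 1 := by linarith
        positivity
      nlinarith
  have hs : 0 < t * (1 - t) := mul_pos ht (by linarith)
  have R0 : 0 < b01 * g2 + b02 * g1 + c0 := by positivity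
  have R1 : 0 < b10 * g2 + b12 * g0 + c1 := by positivity
  have R2 : 0 < b20 * g1 + b21 * g0 + c2 := by positivity
  have R3 : 0 < e0 + e1 + e2 := by positivity
  obtain ⟨τ, hτ, t0, t1, t2, t3⟩ := ex4 (mul_pos hb01 hb02) (mul_pos hb10 hb12)
    (mul_pos hb20 hb21) (by positivity : 0 < e0 * e1 + e0 * e2 + e1 * e2)
    (mul_pos hs R0) (mul_pos hs R1) (mul_pos hs R2) (mul_pos hs R3)
  have F0' := shrinkF ht ht1 hτ hb01 hb02 F0 t0
  have F1' := shrinkF ht ht1 hτ hb10 hb12 F1 t1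
  have F2' := shrinkF ht ht1 hτ hb20 hb21 F2 t2
  have F3' : t * e0 * (t * e1) * (g2 + τ) + t * e0 * (t * e2) * (g1 + τ) +
      t * e1 * (t * e2) * (g0 + τ) ≤ t * e0 + t * e1 + t * e2 := by
    have h1 : t * e0 + t * e1 + t * e2 - (t * e0 * (t * e1) * (g2 + τ) +
        t * e0 * (t * e2) * (g1 + τ) + t * e1 * (t * e2) * (g0 + τ)) =
        t ^ 2 * (e0 + e1 + e2 - (e0 * e1 * g2 + e0 * e2 * g1 + e1 * e2 * g0)) +
        (t * (1 - t) * (e0 + e1 + e2) - τ * (e0 * e1 + e0 * e2 + e1 * e2)) +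
        τ * (e0 * e1 + e0 * e2 + e1 * e2) * (1 - t ^ 2) := by ring
    have h2 : 0 ≤ t ^ 2 * (e0 + e1 + e2 - (e0 * e1 * g2 + e0 * e2 * g1 + e1 * e2 * g0)) :=
      mul_nonneg (sq_nonneg t) (by linarith)
    have h3 : 0 ≤ τ * (e0 * e1 + e0 * e2 + e1 * e2) * (1 - t ^ 2) := by
      apply mul_nonneg (by positivity)
      nlinarith
    linarith
  have hΔ' : (g0 + τ) ^ 2 + (g1 + τ) ^ 2 + (g2 + τ) ^ 2 <
      2 * ((g0 + τ) * (g1 + τ) + (g1 + τ) * (g2 + τ) + (g2 + τ) * (g0 + τ)) := by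
    have h1 : 2 * ((g0 + τ) * (g1 + τ) + (g1 + τ) * (g2 + τ) + (g2 + τ) * (g0 + τ)) -
        ((g0 + τ) ^ 2 + (g1 + τ) ^ 2 + (g2 + τ) ^ 2) =
        (2 * (g0 * g1 + g1 * g2 + g2 * g0) - (g0 ^ 2 + g1 ^ 2 + g2 ^ 2)) +
        2 * τ * (g0 + g1 + g2) + 3 * τ ^ 2 := by ring
    have h2 : 0 < 2 * τ * (g0 + g1 + g2) := by positivity
    have h3 : 0 < 3 * τ ^ 2 := by positivity
    linarith
  exact alg0 (g0 + τ) (g1 + τ) (g2 + τ) (t * b01) (t * b02) (t * b10) (t * b12) (t * b20)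
    (t * b21) (t * c0) (t * c1) (t * c2) (t * e0) (t * e1) (t * e2) (by positivity)
    (by positivity) (by positivity) (by positivity) (by positivity) (by positivity)
    (by positivity) (by positivity) (by positivity) (by positivity) (by positivity)
    (by positivity) hΔ' F0' F1' F2' F3' (shrinkP htP p1) (shrinkP htP p2) (shrinkP htP p3)
    (shrinkP htP p4) (shrinkP htP p5) (shrinkP htP p6)

end Pool.Agent.L7h7.GJ
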