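import Pool.Agent.L7h7.GJ.Stm

set_option autoImplicit false

/-! # Part CARD of project GJ: the labels of level at most `k` -/

namespace Pool.Agent.L7h7.GJ.CardAux

/-- an admissible word from a word over `d` letters -/
def W {d : ℕ} : List (Fin d) → Wd d
  | [] => []
  | (a :: l) => ((W l).headD 0).succAbove a :: W l

theorem W_len {d : ℕ} : ∀ l : List (Fin d), (W l).length = l.length
  | [] => rfl
  | (a :: l) => by simp [W, W_len l]

theorem W_adm {d : ℕ} : ∀ l : List (Fin d), Adm (W l)
  | [] => trivial
  | (a :: l) => by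
    have h := W_adm l
    rw [W]
    cases hl : W l with
    | nil => trivial
    | cons j ν =>
      rw [hl] at h
      exact ⟨by simp, h⟩

theorem W_inj {d : ℕ} : ∀ l l' : List (Fin d), W l = W l' → l = l'
  | [], [], _ => rfl
  | [], (a :: l), h => by simp [W] at h
  | (a :: l), [], h => by simp [W] at h
  | (a :: l), (b :: l'), h => by
    rw [W, W, List.cons.injEq] at h
    have h2 := W_inj l l' h.2
    subst h2
    rw [Fin.succAbove_right_injective h.1]

end Pool.Agent.L7h7.GJ.CardAux

namespace Pool.Agent.L7h7.GJ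

open CardAux

theorem s_CARD : S_CARD := by
  intro d k hd
  have hfin : (Lk d k).Finite := by
    have h1 : (Set.range (Sum.inl : Fin (d + 1) → Lab d)).Finite := Set.finite_range _
    have h2 : ((Sum.inr : Wd d → Lab d) '' {w | w.length ≤ k}).Finite :=
      (List.finite_length_le (Fin (d + 1)) k).image _
    refine (h1.union h2).subset ?_
    rintro x (⟨i, rfl⟩ | ⟨w, hw, rfl⟩)
    · exact Or.inl ⟨i, rfl⟩
    · exact Or.inr ⟨w, hw.2.2, rfl⟩
  refine ⟨hfin, ?_⟩
  rcases Nat.eq_zero_or_pos k with hk | hk
  · subst hk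
    rw [pow_zero]
    have : (Sum.inl 0 : Lab d) ∈ Lk d 0 := Or.inl ⟨0, rfl⟩
    exact (Set.ncard_pos hfin).2 ⟨_, this⟩
  · have hinj : Function.Injective
        (fun f : Fin k → Fin d => (Sum.inr (W (List.ofFn f)) : Lab d)) := by
      intro f g h
      exact List.ofFn_injective (W_inj _ _ (Sum.inr_injective h))
    have hsub : Set.range (fun f : Fin k → Fin d => (Sum.inr (W (List.ofFn f)) : Lab d)) ⊆
        Lk d k := by
      rintro x ⟨f, rfl⟩
      refine Or.inr ⟨W (List.ofFn f), ⟨?_, W_adm _, ?_⟩, rfl⟩
      · intro h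
        have := W_len (List.ofFn f)
        rw [h, List.length_ofFn, List.length_nil] at this
        omega
      · rw [W_len, List.length_ofFn]
    calc d ^ k = Nat.card (Fin k → Fin d) := by simp
      _ = (Set.range (fun f : Fin k → Fin d => (Sum.inr (W (List.ofFn f)) : Lab d))).ncard := by
        rw [← Set.image_univ, Set.ncard_image_of_injective _ hinj, Set.ncard_univ]
      _ ≤ (Lk d k).ncard := Set.ncard_le_ncard hsub hfin

end Pool.Agent.L7h7.GJ
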