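import Pool.Agent.L7h7.GJ.Stm

set_option autoImplicit false

/-! # Part CNT of project GJ: the combinatorics of the active words -/

namespace Pool.Agent.L7h7.GJ.CntAux

open Finset

theorem adm_tail {d : ℕ} {i : Fin (d + 1)} {ν : Wd d} (h : Adm (i :: ν)) : Adm ν := by
  cases ν with
  | nil => trivial
  | cons j ν => exact h.2

theorem adm_suffix {d : ℕ} : ∀ (mu ν : Wd d), Adm (mu ++ ν) → Adm ν
  | [], _, h => h
  | (_ :: mu), ν, h => adm_suffix mu ν (adm_tail h)

theorem sx_len {d : ℕ} : ∀ (ν : Wd d) (m : Fin (d + 1)) (w : Wd d),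
    sx ν m = Sum.inr w → w.length ≤ ν.length
  | [], m, w, h => by simp [sx] at h
  | (i :: ν), m, w, h => by
    by_cases hm : m = i
    · subst hm
      rw [sx, Function.update_self] at h
      rw [← Sum.inr_injective h]
    · rw [sx, Function.update_of_ne hm] at h
      exact (sx_len ν m w h).trans (by simp)

/-- active words -/
def Act {d : ℕ} (T : Finset (Lab d)) (ν : Wd d) : Prop :=
  ∃ mu : Wd d, (Sum.inr (mu ++ ν) : Lab d) ∈ T

theorem act_tail {d : ℕ} {T : Finset (Lab d)} {i : Fin (d + 1)} {ν : Wd d}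
    (h : Act T (i :: ν)) : Act T ν := by
  obtain ⟨mu, hmu⟩ := h
  exact ⟨mu ++ [i], by simpa using hmu⟩

theorem mem_lk {d k : ℕ} {T : Finset (Lab d)} (hT : (T : Set (Lab d)) ⊆ Lk d k) {w : Wd d}
    (h : (Sum.inr w : Lab d) ∈ T) : Adm w ∧ w.length ≤ k := by
  rcases hT h with ⟨i, hi⟩ | ⟨w', hw', he⟩
  · cases hi
  · rw [Sum.inr_injective he]
    exact hw'.2

theorem act_adm {d k : ℕ} {T : Finset (Lab d)} (hT : (T : Set (Lab d)) ⊆ Lk d k) {ν : Wd d}
    (h : Act T ν) : Adm ν ∧ ν.length ≤ k := by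
  obtain ⟨mu, hmu⟩ := h
  obtain ⟨h1, h2⟩ := mem_lk hT hmu
  refine ⟨adm_suffix mu ν h1, ?_⟩
  rw [List.length_append] at h2
  omega

open Classical in
/-- the active words of length `m` -/
noncomputable def AF {d : ℕ} (T : Finset (Lab d)) (m : ℕ) : Finset (Wd d) :=
  (List.finite_length_eq (Fin (d + 1)) m).toFinset.filter (Act T)

theorem mem_AF {d : ℕ} {T : Finset (Lab d)} {m : ℕ} {ν : Wd d} :
    ν ∈ AF T m ↔ ν.length = m ∧ Act T ν := by
  simp [AF]

open Classical in
/-- the active children of a word -/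
noncomputable def FC {d : ℕ} (T : Finset (Lab d)) (ν : Wd d) : Finset (Fin (d + 1)) :=
  univ.filter fun i => Act T (i :: ν)

theorem mem_FC {d : ℕ} {T : Finset (Lab d)} {ν : Wd d} {i : Fin (d + 1)} :
    i ∈ FC T ν ↔ Act T (i :: ν) := by
  simp [FC]

theorem sum_le {α : Type} [DecidableEq α] (S : Finset α) (f : α → ℕ) (h3 : ∀ ν ∈ S, f ν ≤ 3)
    (h1 : ∀ ν ∈ S, ∀ ν' ∈ S, 3 ≤ f ν → 3 ≤ f ν' → ν = ν') :
    ∑ ν ∈ S, f ν ≤ 2 * S.card + 1 := by
  by_cases h : ∃ ν0 ∈ S, 3 ≤ f ν0
  · obtain ⟨ν0, h0, h03⟩ := h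
    rw [← Finset.add_sum_erase S f h0]
    have h5 : ∑ ν ∈ S.erase ν0, f ν ≤ ∑ _ν ∈ S.erase ν0, 2 := Finset.sum_le_sum fun ν hν => by
      by_contra hc
      have := h1 ν (Finset.mem_of_mem_erase hν) ν0 h0 (by omega) h03
      exact (Finset.ne_of_mem_erase hν) this
    rw [Finset.sum_const, Finset.card_erase_of_mem h0, smul_eq_mul] at h5
    have h6 := h3 ν0 h0
    have h7 : 1 ≤ S.card := Finset.card_pos.2 ⟨ν0, h0⟩
    omega
  · push Not at h
    calc ∑ ν ∈ S, f ν ≤ ∑ _ν ∈ S, 2 := Finset.sum_le_sum fun ν hν => by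
          have := h ν hν
          omega
      _ ≤ 2 * S.card + 1 := by
        rw [Finset.sum_const, smul_eq_mul]
        omega

theorem four {d : ℕ} (T : Finset (Lab d)) (dir : Lab d → Fin (d + 1)) (R : Set (Lab d))
    (h3 : ∀ t : Fin 4 → Lab d, (∀ a, t a ∈ T) → (∀ a, t a ∉ R) →
      ¬ Function.Injective (fun a => dir (t a)))
    (F : Finset (Fin (d + 1))) (hF : 4 ≤ F.card)
    (hex : ∀ i ∈ F, ∃ t ∈ T, t ∉ R ∧ dir t = i) : False := by
  obtain ⟨G, hG, hc⟩ := Finset.exists_subset_card_eq hF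
  let e := G.equivFinOfCardEq hc
  choose! f hf using hex
  refine h3 (fun a => f (e.symm a)) (fun a => (hf _ (hG (e.symm a).2)).1)
    (fun a => (hf _ (hG (e.symm a).2)).2.1) ?_
  intro a b hab
  have h1 := (hf _ (hG (e.symm a).2)).2.2
  have h2 := (hf _ (hG (e.symm b).2)).2.2
  have hab' : dir (f (e.symm a)) = dir (f (e.symm b)) := hab
  rw [h1, h2] at hab'
  exact e.symm.injective (Subtype.ext hab')

theorem geo_sum (k : ℕ) : ∑ m ∈ range (k + 1), 2 ^ (m + 1) ≤ 4 * 2 ^ k := by
  have h : ∀ k : ℕ, ∑ m ∈ range (k + 1), 2 ^ (m + 1) + 2 = 4 * 2 ^ k := by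
    intro k
    induction k with
    | zero => simp
    | succ k ih =>
      rw [Finset.sum_range_succ]
      have : 2 ^ (k + 1 + 1) = 4 * 2 ^ k := by ring
      rw [this]
      have : 4 * 2 ^ (k + 1) = 4 * 2 ^ k + 4 * 2 ^ k := by ring
      omega
  have := h k
  omega

end Pool.Agent.L7h7.GJ.CntAux

namespace Pool.Agent.L7h7.GJ

open Finset CntAux

theorem s_CNT : S_CNT := by
  classical
  intro d k T dir hT h1 h2 h3
  -- every node has at most three active children
  have hA : ∀ ν, Act T ν → (FC T ν).card ≤ 3 := by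
    intro ν hν
    obtain ⟨ha, hl⟩ := act_adm hT hν
    by_contra hc
    refine four T (dir ν) (Set.range (sx ν)) (h3 ν ha hl) (FC T ν) (by omega) ?_
    intro i hi
    obtain ⟨mu, hmu⟩ := mem_FC.1 hi
    obtain ⟨h4, h5⟩ := mem_lk hT hmu
    refine ⟨_, hmu, ?_, h1 ν ha hl i mu h4 h5⟩
    rintro ⟨m, hm⟩
    have := sx_len ν m _ hm
    rw [List.length_append, List.length_cons] at this
    omega
  -- at most one active word of each length has three active children
  have hC : ∀ ν ν', Act T ν → Act T ν' → ν.length = ν'.length → 3 ≤ (FC T ν).card →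
      3 ≤ (FC T ν').card → ν = ν' := by
    intro ν ν' hν hν' hlen hc hc'
    obtain ⟨ha, hl⟩ := act_adm hT hν
    obtain ⟨ha', hl'⟩ := act_adm hT hν'
    by_contra hne
    cases hν0 : ν' with
    | nil =>
      rw [hν0, List.length_nil, List.length_eq_zero_iff] at hlen
      exact hne (by rw [hlen, hν0])
    | cons j ν'' =>
      obtain ⟨i, hi⟩ := Finset.card_pos.1 (show 0 < (FC T ν).card by omega)
      obtain ⟨mu, hmu⟩ := mem_FC.1 hi
      have hj : j ∉ FC T ν' := by
        intro hj
        have h5 := (act_adm hT (mem_FC.1 hj)).1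
        rw [hν0] at h5
        exact h5.1 rfl
      refine four T (dir ν') (Set.range (sx ν')) (h3 ν' ha' hl') (insert j (FC T ν'))
        (by rw [Finset.card_insert_of_notMem hj]; omega) ?_
      intro i' hi'
      rcases Finset.mem_insert.1 hi' with rfl | hi'
      · refine ⟨_, hmu, ?_, h2 ν' ha' hl' i' ν'' hν0 _ hmu ?_ ?_⟩
        · rintro ⟨m, hm⟩
          have := sx_len ν' m _ hm
          rw [List.length_append, List.length_cons] at this
          omega
        · rintro ⟨m, hm⟩
          have := sx_len ν' m _ hm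
          rw [List.length_append, List.length_cons] at this
          omega
        · intro mu' he
          have he' := Sum.inr_injective he
          have he2 : (mu ++ [i]) ++ ν = mu' ++ ν' := by simpa using he'
          exact hne (List.append_inj_right' he2 hlen)
      · obtain ⟨mu', hmu'⟩ := mem_FC.1 hi'
        obtain ⟨h4, h5⟩ := mem_lk hT hmu'
        refine ⟨_, hmu', ?_, h1 ν' ha' hl' i' mu' h4 h5⟩
        rintro ⟨m, hm⟩
        have := sx_len ν' m _ hm
        rw [List.length_append, List.length_cons] at this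
        omega
  -- the numbers of active words
  have hstep : ∀ m, (AF T (m + 1)).card ≤ 2 * (AF T m).card + 1 := by
    intro m
    have hsub : AF T (m + 1) ⊆ (AF T m).biUnion fun ν => (FC T ν).image (fun i => i :: ν) := by
      intro w hw
      obtain ⟨hl, hw⟩ := mem_AF.1 hw
      cases w with
      | nil => simp at hl
      | cons i ν =>
        rw [Finset.mem_biUnion]
        refine ⟨ν, mem_AF.2 ⟨by simpa using hl, act_tail hw⟩, ?_⟩
        exact Finset.mem_image.2 ⟨i, mem_FC.2 hw, rfl⟩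
    calc (AF T (m + 1)).card ≤ _ := Finset.card_le_card hsub
      _ ≤ ∑ ν ∈ AF T m, ((FC T ν).image (fun i => i :: ν)).card := Finset.card_biUnion_le
      _ ≤ ∑ ν ∈ AF T m, (FC T ν).card := Finset.sum_le_sum fun ν _ => Finset.card_image_le
      _ ≤ _ := by
        refine CntAux.sum_le _ _ (fun ν hν => hA ν (mem_AF.1 hν).2) ?_
        intro ν hν ν' hν' hc hc'
        exact hC ν ν' (mem_AF.1 hν).2 (mem_AF.1 hν').2
          ((mem_AF.1 hν).1.trans (mem_AF.1 hν').1.symm) hc hc'
  have hn : ∀ m, (AF T m).card + 1 ≤ 2 ^ (m + 1) := by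
    intro m
    induction m with
    | zero =>
      have : (AF T 0).card ≤ 1 := by
        rw [Finset.card_le_one]
        intro a ha b hb
        rw [List.length_eq_zero_iff.1 (mem_AF.1 ha).1, List.length_eq_zero_iff.1 (mem_AF.1 hb).1]
      omega
    | succ m ih =>
      have := hstep m
      rw [pow_succ]
      omega
  -- conclusion
  have hleft : T.toLeft.card ≤ d + 1 := by
    calc T.toLeft.card ≤ (univ : Finset (Fin (d + 1))).card := Finset.card_le_univ _
      _ = d + 1 := by simp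
  have hright : T.toRight.card ≤ ∑ m ∈ range (k + 1), (AF T m).card := by
    have hsub : T.toRight ⊆ (range (k + 1)).biUnion fun m => AF T m := by
      intro w hw
      have hw' := Finset.mem_toRight.1 hw
      obtain ⟨h4, h5⟩ := mem_lk hT hw'
      rw [Finset.mem_biUnion]
      exact ⟨w.length, Finset.mem_range.2 (by omega), mem_AF.2 ⟨rfl, [], hw'⟩⟩
    exact (Finset.card_le_card hsub).trans Finset.card_biUnion_le
  have hs : ∑ m ∈ range (k + 1), (AF T m).card ≤ 4 * 2 ^ k :=
    (Finset.sum_le_sum fun m _ => by have := hn m; omega).trans (geo_sum k)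
  have htot := Finset.card_toLeft_add_card_toRight (u := T)
  omega

end Pool.Agent.L7h7.GJ
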