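import Mathlib

set_option autoImplicit false

/-!
# Project GJ: MP_1f68be_co (inscribability exponents, spheres containing the polytope)

Target: for every `d ≥ 3`, `ε > 0`, `N` there is a simplicial `d`-polytope `V` with at least `N`
vertices (an iterated Kleetope of the simplex) such that every polytope `W` combinatorially
equivalent to `V` and contained in a closed ball has at most `|V| ^ (log 2 / log d + ε)` vertices on
the boundary sphere.  For `d ≥ 4` this exponent is smaller than `log (d-1) / log d`.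

Parts: ALG, LOC, GEO, CNT, CARD, GSTEP, WSTEP, SIND, ASM, FIN (each is a `Prop` below; a part is
proved in its own file `Pool/Agent/L7h7/GJ/<PART>.lean` as `theorem s_PART : S_PART`).
-/

namespace Pool.Agent.L7h7.GJ

open scoped BigOperators

/-- Euclidean space. -/
abbrev E (d : ℕ) := EuclideanSpace ℝ (Fin d)

/-- Words over the letters `0, …, d`. -/
abbrev Wd (d : ℕ) := List (Fin (d + 1))

/-- Labels of vertices: `inl i` are the vertices of the first simplex, `inr (i :: ν)` is the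
vertex stacked beyond the facet opposite to position `i` of the simplex of the node `ν`. -/
abbrev Lab (d : ℕ) := Fin (d + 1) ⊕ List (Fin (d + 1))

/-- The labels of the `d+1` vertices of the simplex of the node `ν`: the simplex of `[]` is the
first one, the simplex of `i :: ν` is that of `ν` with the vertex in position `i` replaced. -/
def sx {d : ℕ} : Wd d → Fin (d + 1) → Lab d
  | [] => Sum.inl
  | (i :: ν) => Function.update (sx ν) i (Sum.inr (i :: ν))

/-- Admissible words: no two consecutive letters are equal. -/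
def Adm {d : ℕ} : Wd d → Prop
  | [] => True
  | [_] => True
  | (i :: j :: ν) => i ≠ j ∧ Adm (j :: ν)

/-- Labels given by a set `S` of words. -/
def LS {d : ℕ} (S : Set (Wd d)) : Set (Lab d) :=
  {x | (∃ i, x = Sum.inl i) ∨ ∃ w ∈ S, x = Sum.inr w}

/-- The words of level at most `k` (nonempty and admissible). -/
def Wk (d k : ℕ) : Set (Wd d) := {w | w ≠ [] ∧ Adm w ∧ w.length ≤ k}

/-- The labels of level at most `k`. -/
def Lk (d k : ℕ) : Set (Lab d) := LS (Wk d k)

/-- `A` is an exposed set of labels of the configuration `q` on `L`. -/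
def Expo {d : ℕ} {ι : Type} (q : ι → E d) (L A : Set ι) : Prop :=
  ∃ l : E d →L[ℝ] ℝ, ∃ c : ℝ, (∀ x ∈ A, l (q x) = c) ∧ ∀ x ∈ L, x ∉ A → l (q x) < c

/-- General position of the configuration `q` on `L`. -/
def GP {d : ℕ} {ι : Type} (q : ι → E d) (L : Set ι) : Prop :=
  ∀ A : Finset ι, (A : Set ι) ⊆ L → A.card ≤ d + 1 → AffineIndependent ℝ (fun x : A => q x)

/-- **ALG** (pure algebra; taken by helper7). -/
def S_ALG : Prop :=
  ∀ (g0 g1 g2 b01 b02 b10 b12 b20 b21 c0 c1 c2 e0 e1 e2 : ℝ),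
    0 < g0 → 0 < g1 → 0 < g2 → 0 < b01 → 0 < b02 → 0 < b10 → 0 < b12 → 0 < b20 → 0 < b21 →
    0 < c0 → 0 < c1 → 0 < c2 → 0 < e0 → 0 < e1 → 0 < e2 →
    g0 ^ 2 + g1 ^ 2 + g2 ^ 2 ≤ 2 * (g0 * g1 + g1 * g2 + g2 * g0) →
    c0 * (b01 + b02 - 1) ≤ b01 * g2 + b02 * g1 - b01 * b02 * g0 →
    c1 * (b10 + b12 - 1) ≤ b10 * g2 + b12 * g0 - b10 * b12 * g1 →
    c2 * (b20 + b21 - 1) ≤ b20 * g1 + b21 * g0 - b20 * b21 * g2 →
    e0 * e1 * g2 + e0 * e2 * g1 + e1 * e2 * g0 ≤ e0 + e1 + e2 →
    1 < b01 * b10 → 1 < b02 * b20 → 1 < b12 * b21 →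
    1 < c0 * e0 → 1 < c1 * e1 → 1 < c2 * e2 → False

/-- **LOC** (taken by helper7): no four points of the sphere beyond four different facets of a
simplex lying in the ball. -/
def S_LOC : Prop :=
  ∀ (d n : ℕ) (w : Fin n → E d) (c : E d) (r : ℝ) (i : Fin 4 → Fin n) (u : Fin 4 → E d)
    (lam : Fin 4 → Fin n → ℝ),
    0 < r → Function.Injective i → (∀ m, dist (w m) c ≤ r) → (∀ a, dist (u a) c = r) →
    (∀ a, ∑ m, lam a m = 1) → (∀ a, ∑ m, lam a m • w m = u a) →
    (∀ a, lam a (i a) < 0) → (∀ a m, m ≠ i a → 0 < lam a m) →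
    (∀ a b, a ≠ b → lam a (i a) * lam b (i b) < lam a (i b) * lam b (i a)) →
    (∀ a, u a ≠ w (i a)) → False

/-- **GEO**: combinatorics of the configuration from its exposed ridges.

Proof.  Fix a node `ν` (admissible, length `≤ k`) and write `s = sx ν` (all `s m ∈ Lk d k`,
`s` injective), `w m = q (s m)`.
(1) `w` is affinely independent: if `∑ c m • w m = 0`, `∑ c m = 0`, apply the functional `l` of the
ridge of `i ≠ j` : `c i * (l (w i) - C) + c j * (l (w j) - C) = 0` with both brackets `< 0`; so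
`c i`, `c j` have opposite signs or are both `0`, for all `i ≠ j`; with at least three indices all
are `0`.  Hence (`d+1` affinely independent points of `E d`) the barycentric coordinates
`bc ν x m` of `q x` exist for all `x`.
(2) `x ∈ Lk`, `x ∉ range s`: two coordinates `i ≠ j` cannot both be `≤ 0`: the ridge functional gives
`l (q x) - C = bc i * (l (w i) - C) + bc j * (l (w j) - C) ≥ 0`, but `l (q x) < C`.  Not all
coordinates are `≥ 0`, since then `q x ∈ convexHull (q '' (Lk \ {x}))`.  So exactly one is `< 0` (this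
is `dir ν x`), the others are `> 0`.
(3) For `i = dir ν x ≠ j = dir ν y`: with `α = C - l (w i) > 0`, `β = C - l (w j) > 0` :
`bc x i * α + bc x j * β > 0`, `bc y i * α + bc y j * β > 0`, i.e. `bc x j * β > - bc x i * α > 0`,
`bc y i * α > - bc y j * β > 0`; multiply.
(4) Let `i :: ν` be admissible of length `≤ k`, `v = inr (i :: ν)` (not in `range (sx ν)`, since words
in `range (sx ν)` have length at most `ν.length`).  Then `dir ν v = i`: if `dir ν v = j ≠ i` then the
coordinates of `q (sx ν i)` with respect to `sx (i :: ν) = update (sx ν) i v` are `1/bc v i` at `i`,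
`- bc v m / bc v i` at `m ≠ i`, negative for every `m ≠ i, j`: at least two (`d ≥ 3`), contradicting
(2) for the node `i :: ν` (`sx ν i` is not in the range of `sx (i :: ν)`).  So `dir ν v = i` and then
`dir (i :: ν) (sx ν i) = i`.
(5) For `t ∈ Lk` outside both ranges: `dir (i::ν) t ≠ i → dir ν t = i` (expand `q t` in `sx (i::ν)`,
then `q v` in `sx ν`: the coordinate at `i` is (positive)*(negative)), and
`dir ν t ≠ i → dir (i::ν) t = i` (expand `q (sx ν i)` in `sx (i::ν)`, its coordinate at `i` is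
`1 / bc v i < 0`).
(6) fourth conclusion: induction on `mu` (for `mu = []` it is (4); for
`mu = mu' ++ [j]` the word is `mu' ++ j :: (i :: ν)`, `j ≠ i`, so `dir (i::ν) t = j ≠ i` by induction, and
use (5)).
(7) fifth conclusion: induction on the word `ν = i :: ν'`: if `t = sx ν' m ∈ range (sx ν')`, then as
`t ∉ range (sx ν)`, `t = sx ν' i`, use (4).  Otherwise `dir ν' t ≠ i`: if `t = inr (mu ++ ν')` with
`mu ≠ []`, then `mu = mu' ++ [j]`, and `j ≠ i` by hypothesis, `dir ν' t = j` by (6) (`t ≠ inr ν'` as it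
is not in the range); else `ν' ≠ []` (for `ν' = []` the word case is exhausted and all `inl` are in
`range (sx [])`), and `dir ν' t = head ν' ≠ i` by the induction hypothesis.  Then use (5). -/
def S_GEO : Prop :=
  ∀ (d k : ℕ) (q : Lab d → E d), 3 ≤ d →
    (∀ ν : Wd d, Adm ν → ν.length ≤ k → ∀ i j, i ≠ j →
      Expo q (Lk d k) (sx ν '' ({i, j} : Set (Fin (d + 1)))ᶜ)) →
    (∀ x ∈ Lk d k, q x ∉ convexHull ℝ (q '' (Lk d k \ {x}))) →
    ∃ (bc : Wd d → Lab d → Fin (d + 1) → ℝ) (dir : Wd d → Lab d → Fin (d + 1)),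
      ∀ ν : Wd d, Adm ν → ν.length ≤ k →
        (∀ x ∈ Lk d k, ∑ m, bc ν x m = 1 ∧ ∑ m, bc ν x m • q (sx ν m) = q x) ∧
        (∀ x ∈ Lk d k, x ∉ Set.range (sx ν) →
          bc ν x (dir ν x) < 0 ∧ ∀ m, m ≠ dir ν x → 0 < bc ν x m) ∧
        (∀ x ∈ Lk d k, ∀ y ∈ Lk d k, x ∉ Set.range (sx ν) → y ∉ Set.range (sx ν) →
          dir ν x ≠ dir ν y →
          bc ν x (dir ν x) * bc ν y (dir ν y) < bc ν x (dir ν y) * bc ν y (dir ν x)) ∧
        (∀ (i : Fin (d + 1)) (mu : Wd d), Adm (mu ++ i :: ν) → (mu ++ i :: ν).length ≤ k →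
          dir ν (Sum.inr (mu ++ i :: ν)) = i) ∧
        (∀ (i : Fin (d + 1)) (ν' : Wd d), ν = i :: ν' → ∀ x ∈ Lk d k,
          x ∉ Set.range (sx ν) → (∀ mu : Wd d, x ≠ Sum.inr (mu ++ ν)) → dir ν x = i)

/-- **CNT** (pure combinatorics of words).

Proof.  Call an admissible word `ν` of length `≤ k` active if `inr (mu ++ ν) ∈ T` for some `mu`
(suffixes of active words are active; every word of `T` is active itself).  The labels
`inr (mu ++ i :: ν)` are not in the range of `sx ν` (its words are suffixes of `ν`).  By the first and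
third hypotheses every node has at most three active children `i :: ν`.  If a node `ν = i :: ν'` has
three active children, then there is no `t ∈ T`, `t ∉ range (sx ν)`, `t` not of the form
`inr (mu ++ ν)` (its direction would be `i`, different from the directions `j ≠ i` of the children:
four directions).  Hence for every `m` at most one active word of
length `m` has three active children: let `ν ≠ ν'` be two such words of length `m` (so both are `≠ []`).
Take `t = inr (mu ++ j :: ν) ∈ T` beyond a child of `ν`; its word is not a suffix of `ν'` (it is longer) and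
does not have the suffix `ν'` (it has the suffix `ν` of the same length); so `dir ν' t` is the head of `ν'`,
a fourth direction at `ν'`; contradiction.  So with `n m` = number of active words of length `m`, `n 0 ≤ 1`,
`n (m+1) ≤ 2 * n m + 1`, `n m + 1 ≤ 2 ^ (m+1)`, and
`T.card ≤ (d + 1) + ∑_{m ≤ k} n m ≤ d + 1 + 4 * 2 ^ k`. -/
def S_CNT : Prop :=
  ∀ (d k : ℕ) (T : Finset (Lab d)) (dir : Wd d → Lab d → Fin (d + 1)),
    (T : Set (Lab d)) ⊆ Lk d k →
    (∀ ν : Wd d, Adm ν → ν.length ≤ k → ∀ (i : Fin (d + 1)) (mu : Wd d),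
      Adm (mu ++ i :: ν) → (mu ++ i :: ν).length ≤ k → dir ν (Sum.inr (mu ++ i :: ν)) = i) →
    (∀ ν : Wd d, Adm ν → ν.length ≤ k → ∀ (i : Fin (d + 1)) (ν' : Wd d), ν = i :: ν' →
      ∀ x ∈ T, x ∉ Set.range (sx ν) → (∀ mu : Wd d, x ≠ Sum.inr (mu ++ ν)) → dir ν x = i) →
    (∀ ν : Wd d, Adm ν → ν.length ≤ k → ∀ t : Fin 4 → Lab d, (∀ a, t a ∈ T) →
      (∀ a, t a ∉ Set.range (sx ν)) → ¬ Function.Injective (fun a => dir ν (t a))) →
    T.card ≤ d + 1 + 4 * 2 ^ k

/-- **CARD**: the labels of level `≤ k` are finite and at least `d ^ k` in number (the words of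
length exactly `k ≥ 1` are `(d+1) * d ^ (k-1)`). -/
def S_CARD : Prop :=
  ∀ (d k : ℕ), 1 ≤ d → (Lk d k).Finite ∧ d ^ k ≤ (Lk d k).ncard

/-- **GSTEP** (geometry of one stacking).

Proof.  `z = (1/d) ∑_{m ≠ i} p (s m)`.  The points `p ∘ s` are affinely independent (GP), an affine
basis of `E d`; `b a` its barycentric coordinates (affine, continuous), `b a z = 1/d` for `a ≠ i`.
`g = l - c` the functional of the facet `s '' {i}ᶜ`: `g z = 0`, `g (p (s i)) < 0`.  For each of the
finitely many exposed `A ⊆ L` with `¬ s '' {i}ᶜ ⊆ A` choose `(l_A, c_A)`: `l_A z < c_A`.  The set `O` of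
all `v` with `g v > 0`; `l_A v < c_A` for all these `A`; `b a v > 0` and
`g (p x) * b a v < g v * b a (p x)` for all `a ≠ i`, `x ∈ L`, `x ∉ s '' {i}ᶜ` is open and nonempty: it
contains `z + t • (z - p (s i))` for all small `t > 0` (the strict conditions other than `g v > 0` hold at
`z`, and `g (z + t • (z - p (s i))) = - t * g (p (s i)) > 0`).  A nonempty open set is not contained in the
finite union of the proper affine subspaces `affineSpan ℝ (p '' A)`, `A.card ≤ d` (each has measure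
zero, `MeasureTheory.Measure.addHaar_affineSubspace`).  Take `v ∈ O` outside them.  Third claim: the
functional `l` itself.  Fourth claim: the functional `g - (g v / b a v) * b a` is `0` at `v` and at
`p (s m)` for `m ≠ i, a`, and negative at `p (s a)` and at `p x`, `x ∈ L \ s '' {i}ᶜ`. -/
def S_GSTEP : Prop :=
  ∀ (d : ℕ) (ι : Type) (L : Set ι) (p : ι → E d) (s : Fin (d + 1) → ι) (i : Fin (d + 1)),
    2 ≤ d → L.Finite → Function.Injective s → (∀ m, s m ∈ L) → GP p L →
    Expo p L (s '' ({i} : Set (Fin (d + 1)))ᶜ) →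
    ∃ v : E d,
      (∀ A : Finset ι, (A : Set ι) ⊆ L → A.card ≤ d → v ∉ affineSpan ℝ (p '' (A : Set ι))) ∧
      (∀ A : Set ι, A ⊆ L → Expo p L A → ¬ (s '' ({i} : Set (Fin (d + 1)))ᶜ ⊆ A) →
        ∃ l : E d →L[ℝ] ℝ, ∃ c : ℝ, (∀ x ∈ A, l (p x) = c) ∧ (∀ x ∈ L, x ∉ A → l (p x) < c) ∧
          l v < c) ∧
      (∃ l : E d →L[ℝ] ℝ, ∀ x ∈ L, l (p x) < l v) ∧
      (∀ a, a ≠ i → ∃ l : E d →L[ℝ] ℝ,
        (∀ m, m ≠ i → m ≠ a → l (p (s m)) = l v) ∧
        ∀ x ∈ L, x ∉ s '' ({i, a} : Set (Fin (d + 1)))ᶜ → l (p x) < l v)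

/-- The invariant of the construction for a set `S` of words. -/
def Inv {d : ℕ} (S : Set (Wd d)) (p : Lab d → E d) : Prop :=
  GP p (LS S) ∧
  (∀ x ∈ LS S, Expo p (LS S) {x}) ∧
  (∀ ν : Wd d, (ν = [] ∨ ν ∈ S) → ∀ i j, i ≠ j →
    Expo p (LS S) (sx ν '' ({i, j} : Set (Fin (d + 1)))ᶜ)) ∧
  (∀ ν : Wd d, (ν = [] ∨ ν ∈ S) → ∀ i, Adm (i :: ν) → (i :: ν) ∉ S →
    Expo p (LS S) (sx ν '' ({i} : Set (Fin (d + 1)))ᶜ))

/-- **WSTEP** (from GSTEP): adding one word.

Proof.  Apply GSTEP with `L = LS S`, `s = sx ν` and put `p' = Function.update p (inr (i :: ν)) v`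
(`inr (i :: ν) ∉ LS S`).  GP: a finset containing the new label is `insert`; use
`AffineIndependent.affineIndependent_of_notMem_span`.  New vertex exposed: third claim.  Old vertices,
old ridges: second claim (`{x}` and `sx ν' '' {a,b}ᶜ` do not contain `sx ν '' {i}ᶜ`: cardinalities
`1, d-1 < d`).  Old facets `sx ν' '' {a}ᶜ` with `(ν', a) ≠ (ν, i)`: they do not contain `sx ν '' {i}ᶜ`:
they would be equal (both have `d` elements); `ν` is determined by the set as its longest word (`inr ν`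
is in it since `i` is not the head of `ν`, and all the other words in it are proper suffixes of `ν`; it is
`[]` iff there is no word), and then `i` is determined since `sx ν` is injective.  New facets
`sx (i::ν) '' {a}ᶜ`, `a ≠ i` (`Adm (a :: i :: ν)`): fourth claim.  New ridges `sx (i::ν) '' {a,b}ᶜ`: if
`i ∈ {a,b}` it is `sx ν '' {a,b}ᶜ`, an old ridge; otherwise it is the intersection of the exposed sets
`sx (i::ν) '' {a}ᶜ` and `sx (i::ν) '' {b}ᶜ` (add the functionals). -/
def S_WSTEP : Prop :=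
  S_GSTEP → ∀ (d : ℕ) (S : Set (Wd d)) (p : Lab d → E d) (i : Fin (d + 1)) (ν : Wd d),
    2 ≤ d → S.Finite → (∀ w ∈ S, w ≠ [] ∧ Adm w) →
    (∀ a w, (a :: w) ∈ S → w = [] ∨ w ∈ S) →
    (ν = [] ∨ ν ∈ S) → Adm (i :: ν) → (i :: ν) ∉ S → Inv S p →
    ∃ p' : Lab d → E d, Inv (insert (i :: ν) S) p'

/-- **SIND** (base and induction, from the conclusion of WSTEP).

Proof.  `Inv ∅ p` for `p` a nondegenerate simplex (`p (inl m)`, `m : Fin (d+1)`, affinely independent in
`E d`; barycentric coordinates `b m` give the exposing functionals `- b i`, `- b i - b j`, `b m`).  Then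
`Inv S p` exists for every finite set `S` of nonempty admissible words closed under tails, by
induction on the cardinality: remove a word of maximal length.  Apply to `Wk d k` (finite). -/
def S_SIND : Prop :=
  (∀ (d : ℕ) (S : Set (Wd d)) (p : Lab d → E d) (i : Fin (d + 1)) (ν : Wd d),
    2 ≤ d → S.Finite → (∀ w ∈ S, w ≠ [] ∧ Adm w) →
    (∀ a w, (a :: w) ∈ S → w = [] ∨ w ∈ S) →
    (ν = [] ∨ ν ∈ S) → Adm (i :: ν) → (i :: ν) ∉ S → Inv S p →
    ∃ p' : Lab d → E d, Inv (insert (i :: ν) S) p') →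
  ∀ (d k : ℕ), 2 ≤ d → ∃ p : Lab d → E d, Inv (Wk d k) p

/-- **ASM** (from LOC, GEO, CNT): the bound for a configuration in a closed ball.

Proof.  Take `bc`, `dir` from GEO.  Apply CNT to `T`: the third hypothesis (no four directions) is LOC
with `w m = q (sx ν m)`, `u a = q (t a)`, `lam a = bc ν (t a)`, `i a = dir ν (t a)`; `q (t a) ≠ q (sx ν _)`
by convex independence, and `sx ν m ∈ Lk d k`. -/
def S_ASM : Prop :=
  S_LOC → S_GEO → S_CNT →
  ∀ (d k : ℕ) (q : Lab d → E d) (c : E d) (r : ℝ) (T : Finset (Lab d)), 3 ≤ d → 0 < r →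
    (∀ ν : Wd d, Adm ν → ν.length ≤ k → ∀ i j, i ≠ j →
      Expo q (Lk d k) (sx ν '' ({i, j} : Set (Fin (d + 1)))ᶜ)) →
    (∀ x ∈ Lk d k, q x ∉ convexHull ℝ (q '' (Lk d k \ {x}))) →
    (∀ x ∈ Lk d k, dist (q x) c ≤ r) → (T : Set (Lab d)) ⊆ Lk d k →
    (∀ x ∈ T, dist (q x) c = r) → T.card ≤ d + 1 + 4 * 2 ^ k

/-- The final theorem (the shape of the second half of `S07571`, with the hypothesis that `W` lies in
the closed ball). -/
def Main : Prop :=
  ∀ d : ℕ, 3 ≤ d → ∀ ε : ℝ, 0 < ε → ∀ N : ℕ, ∃ V : Finset (EuclideanSpace ℝ (Fin d)),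
    affineSpan ℝ (V : Set (EuclideanSpace ℝ (Fin d))) = ⊤ ∧
    (∀ v ∈ V, v ∉ convexHull ℝ ((V : Set (EuclideanSpace ℝ (Fin d))) \ {v})) ∧
    (∀ A : Set (EuclideanSpace ℝ (Fin d)),
      (∃ l : EuclideanSpace ℝ (Fin d) →L[ℝ] ℝ, ∀ x, x ∈ A ↔ (x ∈ V ∧ ∀ w ∈ V, l w ≤ l x)) →
      A ≠ (V : Set (EuclideanSpace ℝ (Fin d))) →
      AffineIndependent ℝ (Subtype.val : A → EuclideanSpace ℝ (Fin d))) ∧
    N ≤ V.card ∧
    ∀ W : Finset (EuclideanSpace ℝ (Fin d)),
    ∀ f : EuclideanSpace ℝ (Fin d) → EuclideanSpace ℝ (Fin d),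
      affineSpan ℝ (W : Set (EuclideanSpace ℝ (Fin d))) = ⊤ →
      (∀ v ∈ W, v ∉ convexHull ℝ ((W : Set (EuclideanSpace ℝ (Fin d))) \ {v})) →
      Set.BijOn f (V : Set (EuclideanSpace ℝ (Fin d))) (W : Set (EuclideanSpace ℝ (Fin d))) →
      (∀ A : Set (EuclideanSpace ℝ (Fin d)), A ⊆ (V : Set (EuclideanSpace ℝ (Fin d))) →
        ((∃ l : EuclideanSpace ℝ (Fin d) →L[ℝ] ℝ, ∀ x, x ∈ A ↔ (x ∈ V ∧ ∀ w ∈ V, l w ≤ l x)) ↔
         (∃ l : EuclideanSpace ℝ (Fin d) →L[ℝ] ℝ,
            ∀ x, x ∈ f '' A ↔ (x ∈ W ∧ ∀ w ∈ W, l w ≤ l x)))) →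
      ∀ c : EuclideanSpace ℝ (Fin d), ∀ r : ℝ, 0 < r →
        (W : Set (EuclideanSpace ℝ (Fin d))) ⊆ Metric.closedBall c r →
        ∀ T : Finset (EuclideanSpace ℝ (Fin d)), T ⊆ W →
          (∀ w ∈ T, w ∈ Metric.sphere c r) →
          (T.card : ℝ) ≤ (V.card : ℝ) ^ (Real.log 2 / Real.log (d : ℝ) + ε)

/-- **FIN** (from the configurations, the bound and CARD).

Proof.  Choose `k` with `d ^ k ≥ N` and `(d ^ ε) ^ k ≥ d + 5`; `p` from the second hypothesis,
`V = p '' Lk d k` (GP with two labels: `p` is injective on `Lk`; `V.card = (Lk d k).ncard ≥ d ^ k`).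
Affine span: `p (inl m)` are `d+1` affinely independent points.  Convex independence of `V`: each vertex
is exposed.  Simplicial: a face `A ≠ V` lies in a hyperplane `{l = c}`, `l ≠ 0`; if `A` were affinely
dependent, GP shows that `A` has at least `d+2` elements, and `d+1` of them are affinely independent, so
they span `E d`, but lie in a hyperplane.  Given `W`, `f`, put `q x = f (p x)`: an exposed set `A ⊆ Lk`
(nonempty) of `p` gives the face `p '' A` of `V`, so the face `q '' A` of `W`, so `Expo q (Lk d k) A`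
(`q` is injective on `Lk`).  Convex independence of `q` is that of `W`.  `T` is the image of a finset of
labels of the same cardinality.  The third hypothesis gives `T.card ≤ d + 1 + 4 * 2 ^ k`, and
`V.card ^ (log 2 / log d + ε) ≥ (d ^ k) ^ (log 2 / log d + ε) = 2 ^ k * (d ^ ε) ^ k ≥ 2 ^ k * (d + 5)`. -/
def S_FIN : Prop :=
  S_CARD →
  (∀ (d k : ℕ), 2 ≤ d → ∃ p : Lab d → E d, Inv (Wk d k) p) →
  (∀ (d k : ℕ) (q : Lab d → E d) (c : E d) (r : ℝ) (T : Finset (Lab d)), 3 ≤ d → 0 < r →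
    (∀ ν : Wd d, Adm ν → ν.length ≤ k → ∀ i j, i ≠ j →
      Expo q (Lk d k) (sx ν '' ({i, j} : Set (Fin (d + 1)))ᶜ)) →
    (∀ x ∈ Lk d k, q x ∉ convexHull ℝ (q '' (Lk d k \ {x}))) →
    (∀ x ∈ Lk d k, dist (q x) c ≤ r) → (T : Set (Lab d)) ⊆ Lk d k →
    (∀ x ∈ T, dist (q x) c = r) → T.card ≤ d + 1 + 4 * 2 ^ k) →
  Main

end Pool.Agent.L7h7.GJ
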