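import Mathlib
import Pool.Agent.L7h7.GJ.Stm

set_option autoImplicit false

/-!
# Project GJ, part GEO

The barycentric coordinates of a configuration whose ridges are exposed.
-/

namespace Pool.Agent.L7h7.GJ

open scoped BigOperators

theorem adm_tail {d : ℕ} {a : Fin (d + 1)} {ν : Wd d} (h : Adm (a :: ν)) : Adm ν := by
  cases ν with
  | nil => trivial
  | cons b ν => exact h.2

theorem adm_suffix {d : ℕ} : ∀ {mu ν : Wd d}, Adm (mu ++ ν) → Adm ν
  | [], _, h => h
  | (a :: mu), ν, h => adm_suffix (mu := mu) (adm_tail (a := a) (by simpa using h))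

theorem adm_head_ne {d : ℕ} {a b : Fin (d + 1)} {ν : Wd d} (h : Adm (a :: b :: ν)) : a ≠ b := h.1

theorem sx_cases {d : ℕ} : ∀ (ν : Wd d) (m : Fin (d + 1)),
    (∃ i, sx ν m = Sum.inl i) ∨ ∃ w mu : Wd d, w ≠ [] ∧ mu ++ w = ν ∧ sx ν m = Sum.inr w
  | [], m => Or.inl ⟨m, rfl⟩
  | (i :: ν), m => by
      by_cases h : m = i
      · right
        refine ⟨i :: ν, [], by simp, by simp, ?_⟩
        subst h
        simp [sx]
      · have e : sx (i :: ν) m = sx ν m := by
          simp [sx, Function.update_of_ne h]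
        rcases sx_cases ν m with ⟨j, hj⟩ | ⟨w, mu, hw, hmu, hj⟩
        · exact Or.inl ⟨j, by rw [e, hj]⟩
        · exact Or.inr ⟨w, i :: mu, hw, by simp [hmu], by rw [e, hj]⟩

theorem sx_mem {d k : ℕ} {ν : Wd d} (hν : Adm ν) (hk : ν.length ≤ k) (m : Fin (d + 1)) :
    sx ν m ∈ Lk d k := by
  rcases sx_cases ν m with ⟨j, hj⟩ | ⟨w, mu, hw, hmu, hj⟩
  · exact Or.inl ⟨j, hj⟩
  · refine Or.inr ⟨w, ⟨hw, ?_, ?_⟩, hj⟩
    · exact adm_suffix (mu := mu) (by rw [hmu]; exact hν)
    · have : (mu ++ w).length = ν.length := by rw [hmu]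
      simp only [List.length_append] at this
      omega

theorem inr_notMem {d : ℕ} {ν w : Wd d} (h : ν.length < w.length) :
    (Sum.inr w : Lab d) ∉ Set.range (sx ν) := by
  rintro ⟨m, hm⟩
  rcases sx_cases ν m with ⟨j, hj⟩ | ⟨w', mu, hw, hmu, hj⟩
  · rw [hj] at hm
    exact absurd hm (by simp)
  · rw [hj] at hm
    have e : w' = w := by simpa using hm
    have : (mu ++ w').length = ν.length := by rw [hmu]
    simp only [List.length_append] at this
    rw [e] at this
    omega

theorem sx_inj {d : ℕ} : ∀ (ν : Wd d), Function.Injective (sx ν)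
  | [] => Sum.inl_injective
  | (i :: ν) => by
      have hn : (Sum.inr (i :: ν) : Lab d) ∉ Set.range (sx ν) := inr_notMem (by simp)
      intro a b hab
      by_cases ha : a = i
      · by_cases hb : b = i
        · rw [ha, hb]
        · exfalso
          apply hn
          refine ⟨b, ?_⟩
          subst ha
          simp only [sx, Function.update_self, Function.update_of_ne hb] at hab
          exact hab.symm
      · by_cases hb : b = i
        · exfalso
          apply hn
          refine ⟨a, ?_⟩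
          subst hb
          simp only [sx, Function.update_self, Function.update_of_ne ha] at hab
          exact hab
        · simp only [sx, Function.update_of_ne ha, Function.update_of_ne hb] at hab
          exact sx_inj ν hab

theorem sx_cons_self {d : ℕ} (i : Fin (d + 1)) (ν : Wd d) : sx (i :: ν) i = Sum.inr (i :: ν) := by
  simp [sx]

theorem sx_cons_ne {d : ℕ} {i m : Fin (d + 1)} (ν : Wd d) (h : m ≠ i) :
    sx (i :: ν) m = sx ν m := by
  simp [sx, Function.update_of_ne h]

theorem sx_notMem_cons {d : ℕ} (i : Fin (d + 1)) (ν : Wd d) :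
    sx ν i ∉ Set.range (sx (i :: ν)) := by
  rintro ⟨m, hm⟩
  by_cases h : m = i
  · subst h
    rw [sx_cons_self] at hm
    exact inr_notMem (ν := ν) (w := m :: ν) (by simp) ⟨m, hm.symm⟩
  · rw [sx_cons_ne ν h] at hm
    exact h (sx_inj ν hm)

/-- The functional of a ridge in coordinates. -/
theorem ridge {d k : ℕ} {q : Lab d → E d}
    (hR : ∀ ν : Wd d, Adm ν → ν.length ≤ k → ∀ i j, i ≠ j →
      Expo q (Lk d k) (sx ν '' ({i, j} : Set (Fin (d + 1)))ᶜ))
    {ν : Wd d} (hν : Adm ν) (hk : ν.length ≤ k) {i j : Fin (d + 1)} (hij : i ≠ j) :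
    ∃ α β : ℝ, 0 < α ∧ 0 < β ∧
      (∀ b : Fin (d + 1) → ℝ, ∑ m, b m = 0 → ∑ m, b m • q (sx ν m) = 0 →
        b i * α + b j * β = 0) ∧
      (∀ x ∈ Lk d k, x ∉ Set.range (sx ν) → ∀ b : Fin (d + 1) → ℝ, ∑ m, b m = 1 →
        ∑ m, b m • q (sx ν m) = q x → 0 < b i * α + b j * β) := by
  obtain ⟨l, c, h1, h2⟩ := hR ν hν hk i j hij
  have hi : l (q (sx ν i)) < c := by
    apply h2 _ (sx_mem hν hk i)
    rintro ⟨m, hm, hm'⟩
    have := sx_inj ν hm'
    subst this
    exact hm (by simp)
  have hj : l (q (sx ν j)) < c := by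
    apply h2 _ (sx_mem hν hk j)
    rintro ⟨m, hm, hm'⟩
    have := sx_inj ν hm'
    subst this
    exact hm (by simp)
  have hm : ∀ m, m ≠ i ∧ m ≠ j → l (q (sx ν m)) = c := by
    intro m hm
    apply h1
    refine ⟨m, ?_, rfl⟩
    simp only [Set.mem_compl_iff, Set.mem_insert_iff, Set.mem_singleton_iff, not_or]
    exact hm
  have key : ∀ (b : Fin (d + 1) → ℝ) (y : E d), ∑ m, b m • q (sx ν m) = y →
      c * ∑ m, b m - l y = b i * (c - l (q (sx ν i))) + b j * (c - l (q (sx ν j))) := by
    intro b y hy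
    have e : c * ∑ m, b m - l y = ∑ m, b m * (c - l (q (sx ν m))) := by
      rw [← hy, map_sum, Finset.mul_sum, ← Finset.sum_sub_distrib]
      refine Finset.sum_congr rfl fun m _ => ?_
      rw [map_smul, smul_eq_mul]
      ring
    rw [e]
    apply Fintype.sum_eq_add i j hij
    intro m hm'
    rw [hm m hm', sub_self, mul_zero]
  refine ⟨c - l (q (sx ν i)), c - l (q (sx ν j)), by linarith, by linarith, ?_, ?_⟩
  · intro b hb hb'
    rw [← key b 0 hb', hb, map_zero]
    ring
  · intro x hx hx' b hb hb'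
    rw [← key b (q x) hb', hb, mul_one]
    have : l (q x) < c := by
      apply h2 x hx
      rintro ⟨m, _, hm'⟩
      exact hx' ⟨m, hm'⟩
    linarith

theorem exists_two {d : ℕ} (hd : 3 ≤ d) (i j : Fin (d + 1)) :
    ∃ a b : Fin (d + 1), a ≠ b ∧ a ≠ i ∧ a ≠ j ∧ b ≠ i ∧ b ≠ j := by
  have h : 1 < (Finset.univ \ ({i, j} : Finset (Fin (d + 1)))).card := by
    have h1 := Finset.le_card_sdiff ({i, j} : Finset (Fin (d + 1))) Finset.univ
    have h2 : ({i, j} : Finset (Fin (d + 1))).card ≤ 2 := Finset.card_le_two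
    rw [Finset.card_univ, Fintype.card_fin] at h1
    omega
  obtain ⟨a, ha, b, hb, hab⟩ := Finset.one_lt_card.1 h
  simp only [Finset.mem_sdiff, Finset.mem_univ, Finset.mem_insert, Finset.mem_singleton,
    true_and, not_or] at ha hb
  exact ⟨a, b, hab, ha.1, ha.2, hb.1, hb.2⟩

section
variable {d k : ℕ} {q : Lab d → E d} (hd : 3 ≤ d)
  (hR : ∀ ν : Wd d, Adm ν → ν.length ≤ k → ∀ i j, i ≠ j →
      Expo q (Lk d k) (sx ν '' ({i, j} : Set (Fin (d + 1)))ᶜ))
  (hC : ∀ x ∈ Lk d k, q x ∉ convexHull ℝ (q '' (Lk d k \ {x})))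

include hd hR in
theorem node_indep {ν : Wd d} (hν : Adm ν) (hk : ν.length ≤ k) (b : Fin (d + 1) → ℝ)
    (h0 : ∑ m, b m = 0) (h1 : ∑ m, b m • q (sx ν m) = 0) : ∀ i, b i = 0 := by
  have hpair : ∀ i j, i ≠ j → ∃ α β : ℝ, 0 < α ∧ 0 < β ∧ b i * α + b j * β = 0 := by
    intro i j hij
    obtain ⟨α, β, ha, hb, h, -⟩ := ridge hR hν hk hij
    exact ⟨α, β, ha, hb, h b h0 h1⟩
  intro i
  obtain ⟨a, c, hac, hai, -, hci, -⟩ := exists_two hd i i
  obtain ⟨α, β, h2, h3, h4⟩ := hpair i a hai.symm
  obtain ⟨α', β', h2', h3', h4'⟩ := hpair i c hci.symm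
  obtain ⟨α'', β'', h2'', h3'', h4''⟩ := hpair a c hac
  rcases lt_trichotomy (b i) 0 with h | h | h
  · exfalso
    have e1 : 0 < b a := by
      have : 0 < b a * β := by nlinarith
      exact (pos_iff_pos_of_mul_pos this).2 h3
    have e2 : 0 < b c := by
      have : 0 < b c * β' := by nlinarith
      exact (pos_iff_pos_of_mul_pos this).2 h3'
    have := mul_pos e1 h2''
    have := mul_pos e2 h3''
    linarith
  · exact h
  · exfalso
    have e1 : 0 < - b a := by
      have : 0 < (- b a) * β := by nlinarith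
      exact (pos_iff_pos_of_mul_pos this).2 h3
    have e2 : 0 < - b c := by
      have : 0 < (- b c) * β' := by nlinarith
      exact (pos_iff_pos_of_mul_pos this).2 h3'
    have := mul_pos e1 h2''
    have := mul_pos e2 h3''
    linarith

include hd hR in
theorem node_exists {ν : Wd d} (hν : Adm ν) (hk : ν.length ≤ k) (y : E d) :
    ∃ b : Fin (d + 1) → ℝ, ∑ m, b m = 1 ∧ ∑ m, b m • q (sx ν m) = y := by
  have hai : AffineIndependent ℝ (fun m => q (sx ν m)) := by
    rw [affineIndependent_iff_of_fintype]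
    intro w hw h
    rw [Finset.weightedVSub_eq_linear_combination _ hw] at h
    exact node_indep hd hR hν hk w hw h
  have htop : affineSpan ℝ (Set.range (fun m => q (sx ν m))) = ⊤ := by
    rw [hai.affineSpan_eq_top_iff_card_eq_finrank_add_one]
    simp
  let B : AffineBasis (Fin (d + 1)) ℝ (E d) := ⟨fun m => q (sx ν m), hai, htop⟩
  refine ⟨fun m => B.coord m y, B.sum_coord_apply_eq_one y, ?_⟩
  exact B.linear_combination_coord_eq_self y

include hd hR in
theorem node_unique {ν : Wd d} (hν : Adm ν) (hk : ν.length ≤ k) {b b' : Fin (d + 1) → ℝ} {y : E d}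
    (h1 : ∑ m, b m = 1) (h2 : ∑ m, b m • q (sx ν m) = y)
    (h1' : ∑ m, b' m = 1) (h2' : ∑ m, b' m • q (sx ν m) = y) (i : Fin (d + 1)) : b i = b' i := by
  have := node_indep hd hR hν hk (fun m => b m - b' m)
    (by rw [Finset.sum_sub_distrib, h1, h1', sub_self])
    (by simp only [sub_smul]; rw [Finset.sum_sub_distrib, h2, h2', sub_self]) i
  linarith

include hR hC in
theorem node_sign {ν : Wd d} (hν : Adm ν) (hk : ν.length ≤ k) {x : Lab d} (hx : x ∈ Lk d k)
    (hx' : x ∉ Set.range (sx ν)) {b : Fin (d + 1) → ℝ}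
    (h1 : ∑ m, b m = 1) (h2 : ∑ m, b m • q (sx ν m) = q x) :
    ∃ i, b i < 0 ∧ ∀ m, m ≠ i → 0 < b m := by
  by_contra hcon
  have hall : ∀ i, 0 ≤ b i := by
    intro i
    by_contra hi
    push Not at hi
    apply hcon
    refine ⟨i, hi, ?_⟩
    intro m hm
    obtain ⟨α, β, ha, hb, -, h⟩ := ridge hR hν hk (i := i) (j := m) hm.symm
    have h3 := h x hx hx' b h1 h2
    have h4 : 0 < b m * β := by nlinarith
    exact (pos_iff_pos_of_mul_pos h4).2 hb
  apply hC x hx
  rw [← h2]
  apply (convex_convexHull ℝ _).sum_mem (fun m _ => hall m) h1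
  intro m _
  apply subset_convexHull
  refine ⟨sx ν m, ⟨sx_mem hν hk m, ?_⟩, rfl⟩
  intro h
  exact hx' ⟨m, h⟩

include hR in
theorem node_prod {ν : Wd d} (hν : Adm ν) (hk : ν.length ≤ k) {x y : Lab d} (hx : x ∈ Lk d k)
    (hx' : x ∉ Set.range (sx ν)) (hy : y ∈ Lk d k)
    (hy' : y ∉ Set.range (sx ν)) {b b' : Fin (d + 1) → ℝ}
    (h1 : ∑ m, b m = 1) (h2 : ∑ m, b m • q (sx ν m) = q x)
    (h1' : ∑ m, b' m = 1) (h2' : ∑ m, b' m • q (sx ν m) = q y) {i j : Fin (d + 1)} (hij : i ≠ j)
    (hi : b i < 0) (hj : b' j < 0) : b i * b' j < b j * b' i := by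
  obtain ⟨α, β, ha, hb, -, h⟩ := ridge hR hν hk hij
  have e1 := h x hx hx' b h1 h2
  have e2 := h y hy hy' b' h1' h2'
  have f1 : 0 < - b i * α := mul_pos (by linarith) ha
  have f2 : 0 < - b' j * β := mul_pos (by linarith) hb
  have f3 : (- b i * α) * (- b' j * β) < (b j * β) * (b' i * α) := by
    apply mul_lt_mul'' (by linarith) (by linarith) f1.le f2.le
  have f4 : (b i * b' j) * (α * β) < (b j * b' i) * (α * β) := by
    calc (b i * b' j) * (α * β) = (- b i * α) * (- b' j * β) := by ring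
      _ < (b j * β) * (b' i * α) := f3
      _ = _ := by ring
  exact lt_of_mul_lt_mul_right f4 (mul_pos ha hb).le

/-- Change of the simplex in coordinates. -/
theorem change {ν : Wd d} {i : Fin (d + 1)} {v t : Fin (d + 1) → ℝ} {y : E d}
    (hv1 : ∑ m, v m = 1) (hv2 : ∑ m, v m • q (sx ν m) = q (Sum.inr (i :: ν)))
    (ht1 : ∑ m, t m = 1) (ht2 : ∑ m, t m • q (sx (i :: ν) m) = y) :
    ∑ m, (Function.update t i 0 m + t i * v m) = 1 ∧
    ∑ m, (Function.update t i 0 m + t i * v m) • q (sx ν m) = y := by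
  have hs : ∑ m, Function.update t i 0 m = ∑ m, t m - t i := by
    rw [← Finset.add_sum_erase _ _ (Finset.mem_univ i),
      ← Finset.add_sum_erase Finset.univ t (Finset.mem_univ i)]
    rw [Function.update_self]
    have : ∑ m ∈ Finset.univ.erase i, Function.update t i 0 m = ∑ m ∈ Finset.univ.erase i, t m := by
      refine Finset.sum_congr rfl fun m hm => ?_
      rw [Function.update_of_ne (Finset.ne_of_mem_erase hm)]
    rw [this]
    ring
  constructor
  · rw [Finset.sum_add_distrib, ← Finset.mul_sum, hv1, hs, ht1]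
    ring
  · have e1 : ∑ m, (Function.update t i 0 m + t i * v m) • q (sx ν m)
        = ∑ m, Function.update t i 0 m • q (sx ν m) + t i • q (Sum.inr (i :: ν)) := by
      rw [← hv2, Finset.smul_sum, ← Finset.sum_add_distrib]
      refine Finset.sum_congr rfl fun m _ => ?_
      rw [add_smul, mul_smul]
    rw [e1, ← ht2, ← Finset.add_sum_erase _ _ (Finset.mem_univ i),
      ← Finset.add_sum_erase Finset.univ (fun m => t m • q (sx (i :: ν) m)) (Finset.mem_univ i)]
    simp only [Function.update_self, zero_smul, zero_add, sx_cons_self]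
    rw [add_comm]
    congr 1
    refine Finset.sum_congr rfl fun m hm => ?_
    rw [Function.update_of_ne (Finset.ne_of_mem_erase hm),
      sx_cons_ne ν (Finset.ne_of_mem_erase hm)]

include hd hR hC in
theorem step4 {ν : Wd d} {i : Fin (d + 1)} (hν : Adm (i :: ν)) (hk : (i :: ν).length ≤ k)
    {v : Fin (d + 1) → ℝ}
    (hv1 : ∑ m, v m = 1) (hv2 : ∑ m, v m • q (sx ν m) = q (Sum.inr (i :: ν))) :
    v i < 0 ∧ (∀ m, m ≠ i → 0 < v m) := by
  have hν' : Adm ν := adm_tail hν
  have hk' : ν.length ≤ k := by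
    simp only [List.length_cons] at hk
    omega
  have hvL : (Sum.inr (i :: ν) : Lab d) ∈ Lk d k := Or.inr ⟨i :: ν, ⟨by simp, hν, hk⟩, rfl⟩
  have hvR : (Sum.inr (i :: ν) : Lab d) ∉ Set.range (sx ν) := inr_notMem (by simp)
  obtain ⟨j, hj, hj'⟩ := node_sign hR hC hν' hk' hvL hvR hv1 hv2
  obtain ⟨t, ht1, ht2⟩ := node_exists hd hR hν hk (q (sx ν i))
  obtain ⟨j', hn, hn'⟩ := node_sign hR hC hν hk (sx_mem hν' hk' i) (sx_notMem_cons i ν) ht1 ht2
  obtain ⟨c1, c2⟩ := change hv1 hv2 ht1 ht2
  have hsingle : ∀ m, Function.update t i 0 m + t i * v m = (Pi.single i 1 : Fin (d + 1) → ℝ) m := by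
    intro m
    refine node_unique hd hR hν' hk' (y := q (sx ν i)) c1 c2 ?_ ?_ m
    · simp
    · rw [Finset.sum_eq_single i]
      · simp
      · intro m _ hm
        simp [Pi.single_eq_of_ne hm]
      · simp
  have hii : t i * v i = 1 := by
    have := hsingle i
    simpa using this
  have hmi : ∀ m, m ≠ i → t m = - (t i * v m) := by
    intro m hm
    have := hsingle m
    rw [Function.update_of_ne hm, Pi.single_eq_of_ne hm] at this
    linarith
  by_cases hji : j = i
  · subst hji
    exact ⟨hj, hj'⟩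
  · exfalso
    have hvi : 0 < v i := hj' i (Ne.symm hji)
    have hti : 0 < t i := by
      have : 0 < t i * v i := by rw [hii]; norm_num
      exact (pos_iff_pos_of_mul_pos this).2 hvi
    obtain ⟨a, b, hab, hai, haj, hbi, hbj⟩ := exists_two hd i j
    have ha : t a < 0 := by
      rw [hmi a hai]
      have := mul_pos hti (hj' a haj)
      linarith
    have hb : t b < 0 := by
      rw [hmi b hbi]
      have := mul_pos hti (hj' b hbj)
      linarith
    by_cases h1 : a = j'
    · have := hn' b (by rw [← h1]; exact hab.symm)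
      linarith
    · have := hn' a h1
      linarith

end

/-- The sign of the coordinate at `i` changes from the node `ν` to the node `i :: ν`. -/
theorem flip {d k : ℕ} {q : Lab d → E d} (hd : 3 ≤ d)
    (hR : ∀ ν : Wd d, Adm ν → ν.length ≤ k → ∀ i j, i ≠ j →
      Expo q (Lk d k) (sx ν '' ({i, j} : Set (Fin (d + 1)))ᶜ))
    (hC : ∀ x ∈ Lk d k, q x ∉ convexHull ℝ (q '' (Lk d k \ {x})))
    {ν : Wd d} {i : Fin (d + 1)} (hν : Adm (i :: ν)) (hk : (i :: ν).length ≤ k)
    {y : E d} {t b : Fin (d + 1) → ℝ}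
    (hb1 : ∑ m, b m = 1) (hb2 : ∑ m, b m • q (sx ν m) = y)
    (ht1 : ∑ m, t m = 1) (ht2 : ∑ m, t m • q (sx (i :: ν) m) = y) :
    ∃ v : ℝ, v < 0 ∧ b i = t i * v := by
  have hν' : Adm ν := adm_tail hν
  have hk' : ν.length ≤ k := by
    simp only [List.length_cons] at hk
    omega
  obtain ⟨v, hv1, hv2⟩ := node_exists hd hR hν' hk' (q (Sum.inr (i :: ν)))
  obtain ⟨hvi, -⟩ := step4 hd hR hC hν hk hv1 hv2
  obtain ⟨c1, c2⟩ := change hv1 hv2 ht1 ht2
  refine ⟨v i, hvi, ?_⟩
  have := node_unique hd hR hν' hk' hb1 hb2 c1 c2 i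
  rw [this]
  simp

theorem s_GEO : S_GEO := by
  intro d k q hd hR hC
  classical
  let bc : Wd d → Lab d → Fin (d + 1) → ℝ := fun ν x =>
    if h : ∃ b : Fin (d + 1) → ℝ, ∑ m, b m = 1 ∧ ∑ m, b m • q (sx ν m) = q x
    then h.choose else 0
  let dir : Wd d → Lab d → Fin (d + 1) := fun ν x =>
    if h : ∃ i, bc ν x i < 0 then h.choose else 0
  have hbc : ∀ ν : Wd d, Adm ν → ν.length ≤ k → ∀ x : Lab d,
      ∑ m, bc ν x m = 1 ∧ ∑ m, bc ν x m • q (sx ν m) = q x := by
    intro ν hν hk x
    have h := node_exists hd hR hν hk (q x)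
    have e : bc ν x = h.choose := dif_pos h
    rw [e]
    exact h.choose_spec
  have hdir : ∀ ν : Wd d, Adm ν → ν.length ≤ k → ∀ x ∈ Lk d k, x ∉ Set.range (sx ν) →
      bc ν x (dir ν x) < 0 ∧ ∀ m, m ≠ dir ν x → 0 < bc ν x m := by
    intro ν hν hk x hx hx'
    obtain ⟨i, hi, hi'⟩ := node_sign hR hC hν hk hx hx' (hbc ν hν hk x).1 (hbc ν hν hk x).2
    have h : ∃ i, bc ν x i < 0 := ⟨i, hi⟩
    have e : dir ν x = h.choose := dif_pos h
    have hneg : bc ν x (dir ν x) < 0 := by
      rw [e]
      exact h.choose_spec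
    have hii : dir ν x = i := by
      by_contra hne
      have := hi' _ hne
      linarith
    rw [hii]
    exact ⟨hi, hi'⟩
  have hdir_eq : ∀ ν : Wd d, Adm ν → ν.length ≤ k → ∀ x ∈ Lk d k, x ∉ Set.range (sx ν) →
      ∀ i, bc ν x i < 0 → dir ν x = i := by
    intro ν hν hk x hx hx' i hi
    by_contra hne
    have := (hdir ν hν hk x hx hx').2 i (Ne.symm hne)
    linarith
  -- the directions at neighbouring nodes
  have hflip1 : ∀ (ν : Wd d) (i : Fin (d + 1)), Adm (i :: ν) → (i :: ν).length ≤ k →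
      ∀ x ∈ Lk d k, x ∉ Set.range (sx ν) → x ∉ Set.range (sx (i :: ν)) →
      dir (i :: ν) x ≠ i → dir ν x = i := by
    intro ν i hν hk x hx hx1 hx2 hne
    have hν' : Adm ν := adm_tail hν
    have hk' : ν.length ≤ k := by
      simp only [List.length_cons] at hk
      omega
    obtain ⟨v, hv, hv'⟩ := flip hd hR hC hν hk (hbc ν hν' hk' x).1 (hbc ν hν' hk' x).2
      (hbc (i :: ν) hν hk x).1 (hbc (i :: ν) hν hk x).2
    have hpos := (hdir (i :: ν) hν hk x hx hx2).2 i (Ne.symm hne)
    apply hdir_eq ν hν' hk' x hx hx1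
    rw [hv']
    exact mul_neg_of_pos_of_neg hpos hv
  have hflip2 : ∀ (ν : Wd d) (i : Fin (d + 1)), Adm (i :: ν) → (i :: ν).length ≤ k →
      ∀ x ∈ Lk d k, x ∉ Set.range (sx ν) → x ∉ Set.range (sx (i :: ν)) →
      dir ν x ≠ i → dir (i :: ν) x = i := by
    intro ν i hν hk x hx hx1 hx2 hne
    have hν' : Adm ν := adm_tail hν
    have hk' : ν.length ≤ k := by
      simp only [List.length_cons] at hk
      omega
    obtain ⟨v, hv, hv'⟩ := flip hd hR hC hν hk (hbc ν hν' hk' x).1 (hbc ν hν' hk' x).2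
      (hbc (i :: ν) hν hk x).1 (hbc (i :: ν) hν hk x).2
    have hpos := (hdir ν hν' hk' x hx hx1).2 i (Ne.symm hne)
    apply hdir_eq (i :: ν) hν hk x hx hx2
    rw [hv'] at hpos
    by_contra hcon
    push Not at hcon
    have := mul_nonpos_of_nonneg_of_nonpos hcon hv.le
    linarith
  -- conclusion 4
  have h4 : ∀ (n : ℕ) (mu : Wd d), mu.length = n → ∀ (ν : Wd d) (i : Fin (d + 1)),
      Adm (mu ++ i :: ν) → (mu ++ i :: ν).length ≤ k → dir ν (Sum.inr (mu ++ i :: ν)) = i := by
    intro n
    induction n with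
    | zero =>
      intro mu hmu ν i hA hk
      have : mu = [] := List.length_eq_zero_iff.1 hmu
      subst this
      simp only [List.nil_append] at hA hk ⊢
      have hν' : Adm ν := adm_tail hA
      have hk' : ν.length ≤ k := by
        simp only [List.length_cons] at hk
        omega
      apply hdir_eq ν hν' hk' _ (Or.inr ⟨i :: ν, ⟨by simp, hA, hk⟩, rfl⟩) (inr_notMem (by simp))
      exact (step4 hd hR hC hA hk (hbc ν hν' hk' _).1 (hbc ν hν' hk' _).2).1
    | succ n ih =>
      intro mu hmu ν i hA hk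
      have hne : mu ≠ [] := by
        intro h
        rw [h] at hmu
        simp at hmu
      obtain ⟨mu', j, rfl⟩ : ∃ mu' : Wd d, ∃ j, mu = mu' ++ [j] :=
        ⟨mu.dropLast, mu.getLast hne, (List.dropLast_append_getLast hne).symm⟩
      have hlen : mu'.length = n := by
        simp only [List.length_append, List.length_cons, List.length_nil] at hmu
        omega
      have ew : mu' ++ [j] ++ i :: ν = mu' ++ j :: (i :: ν) := by simp
      rw [ew] at hA hk ⊢
      have hAj : Adm (j :: i :: ν) := adm_suffix hA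
      have hAi : Adm (i :: ν) := adm_tail hAj
      have hki : (i :: ν).length ≤ k := by
        simp only [List.length_append, List.length_cons] at hk ⊢
        omega
      have hd1 := ih mu' hlen (i :: ν) j hA hk
      have hxL : (Sum.inr (mu' ++ j :: i :: ν) : Lab d) ∈ Lk d k :=
        Or.inr ⟨_, ⟨by simp, hA, hk⟩, rfl⟩
      apply hflip1 ν i hAi hki _ hxL
      · apply inr_notMem
        simp only [List.length_append, List.length_cons]
        omega
      · apply inr_notMem
        simp only [List.length_append, List.length_cons]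
        omega
      · rw [hd1]
        exact adm_head_ne hAj
  -- conclusion 5
  have h5 : ∀ (ν' : Wd d) (i : Fin (d + 1)), Adm (i :: ν') → (i :: ν').length ≤ k →
      ∀ x ∈ Lk d k, x ∉ Set.range (sx (i :: ν')) → (∀ mu : Wd d, x ≠ Sum.inr (mu ++ i :: ν')) →
      dir (i :: ν') x = i := by
    intro ν'
    induction ν' with
    | nil =>
      intro i hA hk x hx hx1 hx2
      rcases hx with ⟨m, rfl⟩ | ⟨w, hw, rfl⟩
      · -- in the range of the first simplex
        by_cases hm : m = i
        · subst hm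
          have hmem := sx_mem (k := k) (adm_tail hA) (Nat.zero_le _) m
          obtain ⟨v, hv1, hv2⟩ := node_exists hd hR (adm_tail hA) (Nat.zero_le _)
            (q (Sum.inr [m]))
          obtain ⟨v', hv', hv''⟩ := flip hd hR hC hA hk (y := q (Sum.inl m))
            (b := Pi.single m 1)
            (by simp) (by
              rw [Finset.sum_eq_single m]
              · simp [sx]
              · intro a _ ha
                simp [Pi.single_eq_of_ne ha]
              · simp)
            (hbc [m] hA hk (Sum.inl m)).1 (hbc [m] hA hk (Sum.inl m)).2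
          apply hdir_eq [m] hA hk _ hmem hx1
          rw [Pi.single_eq_same] at hv''
          by_contra hcon
          push Not at hcon
          have h7 : bc [m] (Sum.inl m) m * v' ≤ 0 := mul_nonpos_of_nonneg_of_nonpos hcon hv'.le
          linarith
        · exfalso
          apply hx1
          exact ⟨m, by rw [sx_cons_ne _ hm]; rfl⟩
      · have hwL : (Sum.inr w : Lab d) ∈ Lk d k := Or.inr ⟨w, hw, rfl⟩
        obtain ⟨hw0, hwA, hwk⟩ := hw
        obtain ⟨mu', j, rfl⟩ : ∃ mu' : Wd d, ∃ j, w = mu' ++ [j] :=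
          ⟨w.dropLast, w.getLast hw0, (List.dropLast_append_getLast hw0).symm⟩
        have hji : j ≠ i := by
          rintro rfl
          exact hx2 mu' rfl
        apply hflip2 [] i hA hk _ hwL _ hx1
        · rw [h4 mu'.length mu' rfl [] j hwA hwk]
          exact hji
        · apply inr_notMem
          simp
    | cons a ν'' ih =>
      intro i hA hk x hx hx1 hx2
      have hA' : Adm (a :: ν'') := adm_tail hA
      have hk' : (a :: ν'').length ≤ k := by
        simp only [List.length_cons] at hk ⊢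
        omega
      by_cases hr : x ∈ Set.range (sx (a :: ν''))
      · obtain ⟨m, rfl⟩ := hr
        by_cases hm : m = i
        · subst hm
          obtain ⟨v', hv', hv''⟩ := flip hd hR hC hA hk (y := q (sx (a :: ν'') m))
            (b := Pi.single m 1)
            (by simp) (by
              rw [Finset.sum_eq_single m]
              · simp
              · intro a _ ha
                simp [Pi.single_eq_of_ne ha]
              · simp)
            (hbc _ hA hk _).1 (hbc _ hA hk _).2
          apply hdir_eq _ hA hk _ hx hx1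
          rw [Pi.single_eq_same] at hv''
          by_contra hcon
          push Not at hcon
          have := mul_nonpos_of_nonneg_of_nonpos hcon hv'.le
          linarith
        · exfalso
          apply hx1
          exact ⟨m, by rw [sx_cons_ne _ hm]⟩
      · apply hflip2 (a :: ν'') i hA hk x hx hr hx1
        by_cases hform : ∃ mu : Wd d, x = Sum.inr (mu ++ a :: ν'')
        · obtain ⟨mu, rfl⟩ := hform
          have hmu : mu ≠ [] := by
            rintro rfl
            apply hr
            exact ⟨a, by rw [sx_cons_self]; rfl⟩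
          obtain ⟨mu', j, rfl⟩ : ∃ mu' : Wd d, ∃ j, mu = mu' ++ [j] :=
            ⟨mu.dropLast, mu.getLast hmu, (List.dropLast_append_getLast hmu).symm⟩
          have ew : mu' ++ [j] ++ a :: ν'' = mu' ++ j :: (a :: ν'') := by simp
          rw [ew] at hx hx2 ⊢
          have hji : j ≠ i := by
            rintro rfl
            exact hx2 mu' rfl
          rcases hx with ⟨m, hm⟩ | ⟨w, ⟨hw0, hwA, hwk⟩, hw⟩
          · exact absurd hm (by simp)
          · have e : mu' ++ j :: a :: ν'' = w := by simpa using hw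
            rw [h4 mu'.length mu' rfl (a :: ν'') j (by rw [e]; exact hwA) (by rw [e]; exact hwk)]
            exact hji
        · push Not at hform
          rw [ih a hA' hk' x hx hr hform]
          exact (adm_head_ne hA).symm
  refine ⟨bc, dir, ?_⟩
  intro ν hν hk
  refine ⟨fun x _ => hbc ν hν hk x, hdir ν hν hk, ?_, ?_, ?_⟩
  · intro x hx y hy hx' hy' hne
    exact node_prod hR hν hk hx hx' hy hy' (hbc ν hν hk x).1 (hbc ν hν hk x).2
      (hbc ν hν hk y).1 (hbc ν hν hk y).2 hne (hdir ν hν hk x hx hx').1 (hdir ν hν hk y hy hy').1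
  · intro i mu hA hk2
    exact h4 mu.length mu rfl ν i hA hk2
  · rintro i ν' rfl x hx hx' hmu
    exact h5 ν' i hν hk x hx hx' hmu

end Pool.Agent.L7h7.GJ
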