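import Pool.Agent.L7h7.GJ.ALG

set_option autoImplicit false

namespace Pool.Agent.L7h7.GJ

open scoped BigOperators RealInnerProductSpace

/-- `1 - ⟪x, y⟫` -/
noncomputable def Bq {d : ℕ} (x y : E d) : ℝ := 1 - ⟪x, y⟫

theorem Bq_comm {d : ℕ} (x y : E d) : Bq x y = Bq y x := by
  unfold Bq; rw [real_inner_comm]

theorem Bq_nonneg {d : ℕ} {x y : E d} (hx : ‖x‖ ≤ 1) (hy : ‖y‖ ≤ 1) : 0 ≤ Bq x y := by
  unfold Bq
  have h := real_inner_le_norm x y
  have h2 : ‖x‖ * ‖y‖ ≤ 1 * 1 := mul_le_mul hx hy (norm_nonneg _) zero_le_one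
  linarith

theorem Bq_pos {d : ℕ} {x y : E d} (hx : ‖x‖ ≤ 1) (hy : ‖y‖ ≤ 1) (hxy : x ≠ y) : 0 < Bq x y := by
  have h1 : 0 < ‖x - y‖ := norm_pos_iff.mpr (sub_ne_zero.mpr hxy)
  have h2 : ‖x - y‖ ^ 2 = ‖x‖ ^ 2 - 2 * ⟪x, y⟫ + ‖y‖ ^ 2 := norm_sub_sq_real x y
  have h3 : ‖x‖ ^ 2 ≤ 1 := by nlinarith [norm_nonneg x]
  have h4 : ‖y‖ ^ 2 ≤ 1 := by nlinarith [norm_nonneg y]
  unfold Bq
  nlinarith [pow_pos h1 2]

theorem Bq_self {d : ℕ} {x : E d} (hx : ‖x‖ = 1) : Bq x x = 0 := by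
  unfold Bq
  rw [real_inner_self_eq_norm_sq, hx]; norm_num

theorem dist_sq_unit {d : ℕ} {x y : E d} (hx : ‖x‖ = 1) (hy : ‖y‖ = 1) :
    dist x y ^ 2 = 2 * Bq x y := by
  rw [dist_eq_norm, norm_sub_sq_real, hx, hy]
  unfold Bq; ring

/-- elimination of `u` -/
theorem elimU {d : ℕ} {u p p1 p2 p3 : E d} {b1 b2 b3 : ℝ} (hu : ‖u‖ = 1) (hp : ‖p‖ = 1)
    (hp1 : ‖p1‖ = 1) (hp2 : ‖p2‖ = 1) (hp3 : ‖p3‖ = 1) (hb1 : 0 < b1) (hb2 : 0 < b2) (hb3 : 0 < b3)
    (h : b1 * Bq u p1 + b2 * Bq u p2 + b3 * Bq u p3 ≤ Bq u p) :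
    b1 * b2 * Bq p1 p2 + b1 * b3 * Bq p1 p3 + b2 * b3 * Bq p2 p3 ≤
      b1 * Bq p p1 + b2 * Bq p p2 + b3 * Bq p p3 := by
  obtain ⟨n, hn⟩ : ∃ n : E d, n = p - (b1 • p1 + b2 • p2 + b3 • p3) := ⟨_, rfl⟩
  have hi : ⟪u, n⟫ = ⟪u, p⟫ - (b1 * ⟪u, p1⟫ + b2 * ⟪u, p2⟫ + b3 * ⟪u, p3⟫) := by
    rw [hn, inner_sub_right, inner_add_right, inner_add_right, inner_smul_right, inner_smul_right,
      inner_smul_right]
  have h1 : ⟪u, n⟫ ≤ 1 - b1 - b2 - b3 := by
    rw [hi]; unfold Bq at h; linarith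
  have h2 : -‖n‖ ≤ 1 - b1 - b2 - b3 := by
    have := neg_le_of_abs_le (abs_real_inner_le_norm u n)
    rw [hu, one_mul] at this
    linarith
  have h3 : 1 - b1 - b2 - b3 ≤ ‖n‖ := by
    have e1 : p = n + (b1 • p1 + b2 • p2 + b3 • p3) := by rw [hn]; abel
    have e2 : ‖p‖ ≤ ‖n‖ + (‖b1 • p1‖ + ‖b2 • p2‖ + ‖b3 • p3‖) := by
      calc ‖p‖ = ‖n + (b1 • p1 + b2 • p2 + b3 • p3)‖ := by rw [← e1]
        _ ≤ ‖n‖ + ‖b1 • p1 + b2 • p2 + b3 • p3‖ := norm_add_le _ _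
        _ ≤ ‖n‖ + (‖b1 • p1‖ + ‖b2 • p2‖ + ‖b3 • p3‖) := by
          have := norm_add₃_le (a := b1 • p1) (b := b2 • p2) (c := b3 • p3)
          linarith
    rw [norm_smul, norm_smul, norm_smul, hp, hp1, hp2, hp3, Real.norm_of_nonneg hb1.le,
      Real.norm_of_nonneg hb2.le, Real.norm_of_nonneg hb3.le] at e2
    linarith
  have h4 : (1 - b1 - b2 - b3) ^ 2 ≤ ‖n‖ ^ 2 := by
    apply sq_le_sq'
    · exact h2
    · exact h3
  have h5 : ‖n‖ ^ 2 = ⟪p, p⟫ + b1 ^ 2 * ⟪p1, p1⟫ + b2 ^ 2 * ⟪p2, p2⟫ + b3 ^ 2 * ⟪p3, p3⟫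
      - 2 * (b1 * ⟪p, p1⟫ + b2 * ⟪p, p2⟫ + b3 * ⟪p, p3⟫)
      + 2 * (b1 * b2 * ⟪p1, p2⟫ + b1 * b3 * ⟪p1, p3⟫ + b2 * b3 * ⟪p2, p3⟫) := by
    rw [← real_inner_self_eq_norm_sq, hn]
    simp only [inner_sub_left, inner_sub_right, inner_add_left, inner_add_right,
      real_inner_smul_left, real_inner_smul_right]
    rw [real_inner_comm p p1, real_inner_comm p p2, real_inner_comm p p3, real_inner_comm p1 p2,
      real_inner_comm p1 p3, real_inner_comm p2 p3]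
    ring
  rw [h5, real_inner_self_eq_norm_sq, real_inner_self_eq_norm_sq, real_inner_self_eq_norm_sq,
    real_inner_self_eq_norm_sq, hp, hp1, hp2, hp3] at h4
  unfold Bq
  nlinarith

theorem ne_of_quad {d : ℕ} {u v p q : E d} {b b' : ℝ} (hu : ‖u‖ = 1) (hv : ‖v‖ = 1) (hp : ‖p‖ = 1)
    (hq : ‖q‖ = 1) (hup : u ≠ p) (hvq : v ≠ q) (hb : 0 < b) (hb' : 0 < b')
    (h1 : b * Bq u q ≤ Bq u p) (h2 : b' * Bq v p ≤ Bq v q) (hbb : 1 < b * b') : p ≠ q := by
  intro h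
  subst h
  have k1 := Bq_pos hu.le hp.le hup
  have k2 := Bq_pos hv.le hp.le hvq
  have l1 : b ≤ 1 := by
    by_contra hc; push Not at hc
    nlinarith
  have l2 : b' ≤ 1 := by
    by_contra hc; push Not at hc
    nlinarith
  nlinarith

theorem ptolemy {d : ℕ} {p0 p1 p2 p3 : E d} (h0 : ‖p0‖ = 1) (h1 : ‖p1‖ = 1) (h2 : ‖p2‖ = 1)
    (h3 : ‖p3‖ = 1) :
    (Bq p1 p2 * Bq p0 p3) ^ 2 + (Bq p0 p2 * Bq p1 p3) ^ 2 + (Bq p0 p1 * Bq p2 p3) ^ 2 ≤
      2 * ((Bq p1 p2 * Bq p0 p3) * (Bq p0 p2 * Bq p1 p3) +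
        (Bq p0 p2 * Bq p1 p3) * (Bq p0 p1 * Bq p2 p3) +
        (Bq p0 p1 * Bq p2 p3) * (Bq p1 p2 * Bq p0 p3)) := by
  have i1 := EuclideanGeometry.mul_dist_le_mul_dist_add_mul_dist p0 p1 p2 p3
  have i2 := EuclideanGeometry.mul_dist_le_mul_dist_add_mul_dist p0 p2 p1 p3
  have i3 := EuclideanGeometry.mul_dist_le_mul_dist_add_mul_dist p1 p0 p2 p3
  rw [dist_comm p2 p1] at i2
  rw [dist_comm p1 p0] at i3
  have q01 := dist_sq_unit h0 h1
  have q02 := dist_sq_unit h0 h2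
  have q03 := dist_sq_unit h0 h3
  have q12 := dist_sq_unit h1 h2
  have q13 := dist_sq_unit h1 h3
  have q23 := dist_sq_unit h2 h3
  obtain ⟨A, hA⟩ : ∃ A : ℝ, A = dist p1 p2 * dist p0 p3 := ⟨_, rfl⟩
  obtain ⟨B, hB⟩ : ∃ B : ℝ, B = dist p0 p2 * dist p1 p3 := ⟨_, rfl⟩
  obtain ⟨C, hC⟩ : ∃ C : ℝ, C = dist p0 p1 * dist p2 p3 := ⟨_, rfl⟩
  have a1 : Bq p1 p2 * Bq p0 p3 = A ^ 2 / 4 := by
    rw [hA, mul_pow, q12, q03]; ring
  have a2 : Bq p0 p2 * Bq p1 p3 = B ^ 2 / 4 := by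
    rw [hB, mul_pow, q02, q13]; ring
  have a3 : Bq p0 p1 * Bq p2 p3 = C ^ 2 / 4 := by
    rw [hC, mul_pow, q01, q23]; ring
  have pA : 0 ≤ A := by rw [hA]; positivity
  have pB : 0 ≤ B := by rw [hB]; positivity
  have pC : 0 ≤ C := by rw [hC]; positivity
  rw [← hB, ← hC, ← hA] at i1
  have i2' : C ≤ B + A := by rw [hA, hB, hC]; exact i2
  have i3' : A ≤ C + B := by rw [hA, hB, hC]; exact i3
  rw [a1, a2, a3]
  have key : 0 ≤ (A + B + C) * (B + C - A) * ((A + C - B) * (A + B - C)) := by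
    apply mul_nonneg
    · apply mul_nonneg <;> linarith
    · apply mul_nonneg <;> linarith
  nlinarith

/-- four null pairs -/
theorem quad {d : ℕ} (u p : Fin 4 → E d) (b : Fin 4 → Fin 4 → ℝ) (hu : ∀ a, ‖u a‖ = 1)
    (hp : ∀ a, ‖p a‖ = 1) (hup : ∀ a, u a ≠ p a) (hb : ∀ a c, a ≠ c → 0 < b a c)
    (hbb : ∀ a c, a ≠ c → 1 < b a c * b c a)
    (h0 : b 0 1 * Bq (u 0) (p 1) + b 0 2 * Bq (u 0) (p 2) + b 0 3 * Bq (u 0) (p 3) ≤
      Bq (u 0) (p 0))
    (h1 : b 1 0 * Bq (u 1) (p 0) + b 1 2 * Bq (u 1) (p 2) + b 1 3 * Bq (u 1) (p 3) ≤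
      Bq (u 1) (p 1))
    (h2 : b 2 0 * Bq (u 2) (p 0) + b 2 1 * Bq (u 2) (p 1) + b 2 3 * Bq (u 2) (p 3) ≤
      Bq (u 2) (p 2))
    (h3 : b 3 0 * Bq (u 3) (p 0) + b 3 1 * Bq (u 3) (p 1) + b 3 2 * Bq (u 3) (p 2) ≤
      Bq (u 3) (p 3)) : False := by
  have nn : ∀ a c, 0 ≤ Bq (u a) (p c) := fun a c => Bq_nonneg (hu a).le (hp c).le
  have P : ∀ a c : Fin 4, a ≠ c → 0 < b a c := hb
  have b01 := hb 0 1 (by decide)
  have b02 := hb 0 2 (by decide)
  have b03 := hb 0 3 (by decide)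
  have b10 := hb 1 0 (by decide)
  have b12 := hb 1 2 (by decide)
  have b13 := hb 1 3 (by decide)
  have b20 := hb 2 0 (by decide)
  have b21 := hb 2 1 (by decide)
  have b23 := hb 2 3 (by decide)
  have b30 := hb 3 0 (by decide)
  have b31 := hb 3 1 (by decide)
  have b32 := hb 3 2 (by decide)
  have m01 := mul_nonneg b01.le (nn 0 1)
  have m02 := mul_nonneg b02.le (nn 0 2)
  have m03 := mul_nonneg b03.le (nn 0 3)
  have m10 := mul_nonneg b10.le (nn 1 0)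
  have m12 := mul_nonneg b12.le (nn 1 2)
  have m13 := mul_nonneg b13.le (nn 1 3)
  have m20 := mul_nonneg b20.le (nn 2 0)
  have m21 := mul_nonneg b21.le (nn 2 1)
  have m23 := mul_nonneg b23.le (nn 2 3)
  have m30 := mul_nonneg b30.le (nn 3 0)
  have m31 := mul_nonneg b31.le (nn 3 1)
  have m32 := mul_nonneg b32.le (nn 3 2)
  have n01 : p 0 ≠ p 1 := ne_of_quad (hu 0) (hu 1) (hp 0) (hp 1) (hup 0) (hup 1) b01 b10
    (by linarith) (by linarith) (hbb 0 1 (by decide))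
  have n02 : p 0 ≠ p 2 := ne_of_quad (hu 0) (hu 2) (hp 0) (hp 2) (hup 0) (hup 2) b02 b20
    (by linarith) (by linarith) (hbb 0 2 (by decide))
  have n03 : p 0 ≠ p 3 := ne_of_quad (hu 0) (hu 3) (hp 0) (hp 3) (hup 0) (hup 3) b03 b30
    (by linarith) (by linarith) (hbb 0 3 (by decide))
  have n12 : p 1 ≠ p 2 := ne_of_quad (hu 1) (hu 2) (hp 1) (hp 2) (hup 1) (hup 2) b12 b21
    (by linarith) (by linarith) (hbb 1 2 (by decide))
  have n13 : p 1 ≠ p 3 := ne_of_quad (hu 1) (hu 3) (hp 1) (hp 3) (hup 1) (hup 3) b13 b31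
    (by linarith) (by linarith) (hbb 1 3 (by decide))
  have n23 : p 2 ≠ p 3 := ne_of_quad (hu 2) (hu 3) (hp 2) (hp 3) (hup 2) (hup 3) b23 b32
    (by linarith) (by linarith) (hbb 2 3 (by decide))
  have pZ := Bq_pos (hp 0).le (hp 1).le n01
  have pY := Bq_pos (hp 0).le (hp 2).le n02
  have px := Bq_pos (hp 0).le (hp 3).le n03
  have pX := Bq_pos (hp 1).le (hp 2).le n12
  have py := Bq_pos (hp 1).le (hp 3).le n13
  have pz := Bq_pos (hp 2).le (hp 3).le n23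
  have F0 := elimU (hu 0) (hp 0) (hp 1) (hp 2) (hp 3) b01 b02 b03 h0
  have F1 := elimU (hu 1) (hp 1) (hp 0) (hp 2) (hp 3) b10 b12 b13 h1
  have F2 := elimU (hu 2) (hp 2) (hp 0) (hp 1) (hp 3) b20 b21 b23 h2
  have F3 := elimU (hu 3) (hp 3) (hp 0) (hp 1) (hp 2) b30 b31 b32 h3
  have PT := ptolemy (hp 0) (hp 1) (hp 2) (hp 3)
  rw [Bq_comm (p 1) (p 0)] at F1
  rw [Bq_comm (p 2) (p 0), Bq_comm (p 2) (p 1)] at F2
  rw [Bq_comm (p 3) (p 0), Bq_comm (p 3) (p 1), Bq_comm (p 3) (p 2)] at F3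
  have k01 := hbb 0 1 (by decide)
  have k02 := hbb 0 2 (by decide)
  have k03 := hbb 0 3 (by decide)
  have k12 := hbb 1 2 (by decide)
  have k13 := hbb 1 3 (by decide)
  have k23 := hbb 2 3 (by decide)
  clear m01 m02 m03 m10 m12 m13 m20 m21 m23 m30 m31 m32 n01 n02 n03 n12 n13 n23 h0 h1 h2 h3 hbb
  generalize Bq (p 0) (p 1) = Z at *
  generalize Bq (p 0) (p 2) = Y at *
  generalize Bq (p 0) (p 3) = x at *
  generalize Bq (p 1) (p 2) = X at *
  generalize Bq (p 1) (p 3) = y at *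
  generalize Bq (p 2) (p 3) = z at *
  generalize b 0 1 = B01 at *
  generalize b 0 2 = B02 at *
  generalize b 0 3 = B03 at *
  generalize b 1 0 = B10 at *
  generalize b 1 2 = B12 at *
  generalize b 1 3 = B13 at *
  generalize b 2 0 = B20 at *
  generalize b 2 1 = B21 at *
  generalize b 2 3 = B23 at *
  generalize b 3 0 = B30 at *
  generalize b 3 1 = B31 at *
  generalize b 3 2 = B32 at *
  clear nn hu hp hup hb P
  have xyz : 0 < x * y * z := by positivity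
  refine s_ALG (X / (y * z)) (Y / (x * z)) (Z / (x * y)) (B01 * y / x) (B02 * z / x) (B10 * x / y)
    (B12 * z / y) (B20 * x / z) (B21 * y / z) (B03 / x) (B13 / y) (B23 / z) (B30 * x) (B31 * y)
    (B32 * z) (by positivity) (by positivity) (by positivity) (by positivity) (by positivity)
    (by positivity) (by positivity) (by positivity) (by positivity) (by positivity)
    (by positivity) (by positivity) (by positivity) (by positivity) (by positivity)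
    ?_ ?_ ?_ ?_ ?_ ?_ ?_ ?_ ?_ ?_ ?_
  · have e0 : X / (y * z) = X * x / (x * y * z) := by field_simp
    have e1 : Y / (x * z) = Y * y / (x * y * z) := by field_simp
    have e2 : Z / (x * y) = Z * z / (x * y * z) := by field_simp
    rw [e0, e1, e2]
    have l1 : (X * x / (x * y * z)) ^ 2 + (Y * y / (x * y * z)) ^ 2 + (Z * z / (x * y * z)) ^ 2 =
      ((X * x) ^ 2 + (Y * y) ^ 2 + (Z * z) ^ 2) / (x * y * z) ^ 2 := by
      field_simp
    have l2 : 2 * (X * x / (x * y * z) * (Y * y / (x * y * z)) + Y * y / (x * y * z) *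
      (Z * z / (x * y * z)) + Z * z / (x * y * z) * (X * x / (x * y * z))) =
      (2 * (X * x * (Y * y) + Y * y * (Z * z) + Z * z * (X * x))) / (x * y * z) ^ 2 := by
      field_simp
    rw [l1, l2]
    exact div_le_div_of_nonneg_right PT (by positivity)
  · have l1 : B03 / x * (B01 * y / x + B02 * z / x - 1) =
      (B03 * (B01 * y + B02 * z - x)) / x ^ 2 := by field_simp
    have l2 : B01 * y / x * (Z / (x * y)) + B02 * z / x * (Y / (x * z)) -
      B01 * y / x * (B02 * z / x) * (X / (y * z)) = (B01 * Z + B02 * Y - B01 * B02 * X) / x ^ 2 := by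
      field_simp
    rw [l1, l2]
    exact div_le_div_of_nonneg_right (by linarith) (by positivity)
  · have l1 : B13 / y * (B10 * x / y + B12 * z / y - 1) =
      (B13 * (B10 * x + B12 * z - y)) / y ^ 2 := by field_simp
    have l2 : B10 * x / y * (Z / (x * y)) + B12 * z / y * (X / (y * z)) -
      B10 * x / y * (B12 * z / y) * (Y / (x * z)) = (B10 * Z + B12 * X - B10 * B12 * Y) / y ^ 2 := by
      field_simp
    rw [l1, l2]
    exact div_le_div_of_nonneg_right (by linarith) (by positivity)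
  · have l1 : B23 / z * (B20 * x / z + B21 * y / z - 1) =
      (B23 * (B20 * x + B21 * y - z)) / z ^ 2 := by field_simp
    have l2 : B20 * x / z * (Y / (x * z)) + B21 * y / z * (X / (y * z)) -
      B20 * x / z * (B21 * y / z) * (Z / (x * y)) = (B20 * Y + B21 * X - B20 * B21 * Z) / z ^ 2 := by
      field_simp
    rw [l1, l2]
    exact div_le_div_of_nonneg_right (by linarith) (by positivity)
  · have l1 : B30 * x * (B31 * y) * (Z / (x * y)) + B30 * x * (B32 * z) * (Y / (x * z)) +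
      B31 * y * (B32 * z) * (X / (y * z)) = B30 * B31 * Z + B30 * B32 * Y + B31 * B32 * X := by
      field_simp
    rw [l1]
    linarith
  · have : B01 * y / x * (B10 * x / y) = B01 * B10 := by field_simp
    rw [this]; exact k01
  · have : B02 * z / x * (B20 * x / z) = B02 * B20 := by field_simp
    rw [this]; exact k02
  · have : B12 * z / y * (B21 * y / z) = B12 * B21 := by field_simp
    rw [this]; exact k12
  · have : B03 / x * (B30 * x) = B03 * B30 := by field_simp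
    rw [this]; exact k03
  · have : B13 / y * (B31 * y) = B13 * B31 := by field_simp
    rw [this]; exact k13
  · have : B23 / z * (B32 * z) = B23 * B32 := by field_simp
    rw [this]; exact k23

/-- second intersection of the line through `u` and `w` with the sphere -/
theorem second {d : ℕ} {u w : E d} (hu : ‖u‖ = 1) (hw : ‖w‖ ≤ 1) (hne : u ≠ w) :
    ∃ (k : ℝ) (p : E d), 0 < k ∧ ‖p‖ = 1 ∧ (∀ x : E d, ‖x‖ = 1 → k * Bq x p ≤ Bq x w) ∧
      k * Bq u p = Bq u w := by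
  have hB : 0 < Bq u w := Bq_pos hu.le hw hne
  have hsq : ‖u - w‖ ^ 2 = ‖u‖ ^ 2 - 2 * ⟪u, w⟫ + ‖w‖ ^ 2 := norm_sub_sq_real u w
  have hpos : 0 < ‖u - w‖ ^ 2 := by
    have : 0 < ‖u - w‖ := norm_pos_iff.mpr (sub_ne_zero.mpr hne)
    positivity
  rw [hu] at hsq
  have hw2 : ‖w‖ ^ 2 ≤ 1 := by nlinarith [norm_nonneg w]
  obtain ⟨κ, hκ⟩ : ∃ κ : ℝ, κ = (1 - ‖w‖ ^ 2) / (2 * Bq u w) := ⟨_, rfl⟩
  have hκ0 : 0 ≤ κ := by
    rw [hκ]; apply div_nonneg <;> linarith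
  have hκ1 : κ < 1 := by
    rw [hκ, div_lt_one (by positivity)]
    unfold Bq
    nlinarith
  have hκe : κ * (2 * Bq u w) = 1 - ‖w‖ ^ 2 := by
    rw [hκ]; field_simp
  have hk : 0 < 1 - κ := by linarith
  have hn : ‖w - κ • u‖ = 1 - κ := by
    have h1 : ‖w - κ • u‖ ^ 2 = (1 - κ) ^ 2 := by
      rw [norm_sub_sq_real, norm_smul, hu, inner_smul_right, real_inner_comm,
        Real.norm_of_nonneg hκ0]
      unfold Bq at hκe
      nlinarith
    exact (pow_left_inj₀ (norm_nonneg _) hk.le (by norm_num)).mp h1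
  have key : ∀ x : E d, (1 - κ) * Bq x ((1 - κ)⁻¹ • (w - κ • u)) = Bq x w - κ * Bq x u := by
    intro x
    unfold Bq
    rw [inner_smul_right, inner_sub_right, inner_smul_right]
    field_simp
    ring
  refine ⟨1 - κ, (1 - κ)⁻¹ • (w - κ • u), hk, ?_, ?_, ?_⟩
  · rw [norm_smul, hn, norm_inv, Real.norm_of_nonneg hk.le]
    field_simp
  · intro x hx
    rw [key x]
    have := mul_nonneg hκ0 (Bq_nonneg hx.le hu.le)
    linarith
  · rw [key u, Bq_self hu]; ring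

theorem row {La Lb Lc Ld ka kb kc kd Xa Xb Xc Xd Ya Yb Yc Yd : ℝ} (hLa : La < 0) (hLb : 0 < Lb)
    (hLc : 0 < Lc) (hLd : 0 < Ld) (ka0 : 0 < ka)
    (ha : ka * Ya = Xa) (hb : kb * Yb ≤ Xb) (hc : kc * Yc ≤ Xc) (hd : kd * Yd ≤ Xd)
    (h : La * Xa + Lb * Xb + Lc * Xc + Ld * Xd ≤ 0) :
    Lb * kb / (-La * ka) * Yb + Lc * kc / (-La * ka) * Yc + Ld * kd / (-La * ka) * Yd ≤ Ya := by
  have hD : 0 < -La * ka := mul_pos (by linarith) ka0
  have e : Lb * kb / (-La * ka) * Yb + Lc * kc / (-La * ka) * Yc + Ld * kd / (-La * ka) * Yd =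
      (Lb * (kb * Yb) + Lc * (kc * Yc) + Ld * (kd * Yd)) / (-La * ka) := by ring
  rw [e, div_le_iff₀ hD]
  have h1 := mul_le_mul_of_nonneg_left hb hLb.le
  have h2 := mul_le_mul_of_nonneg_left hc hLc.le
  have h3 := mul_le_mul_of_nonneg_left hd hLd.le
  have h4 : Ya * (-La * ka) = -(La * Xa) := by rw [← ha]; ring
  rw [h4]
  linarith

theorem loc1 (d n : ℕ) (w : Fin n → E d) (i : Fin 4 → Fin n) (u : Fin 4 → E d)
    (lam : Fin 4 → Fin n → ℝ) (hi : Function.Injective i) (hw : ∀ m, ‖w m‖ ≤ 1)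
    (hu : ∀ a, ‖u a‖ = 1) (hs : ∀ a, ∑ m, lam a m = 1) (hc : ∀ a, ∑ m, lam a m • w m = u a)
    (hneg : ∀ a, lam a (i a) < 0) (hpos : ∀ a m, m ≠ i a → 0 < lam a m)
    (hst : ∀ a b, a ≠ b → lam a (i a) * lam b (i b) < lam a (i b) * lam b (i a))
    (hne : ∀ a, u a ≠ w (i a)) : False := by
  have H : ∀ a, ∑ b : Fin 4, lam a (i b) * Bq (u a) (w (i b)) ≤ 0 := by
    intro a
    have h1 : ∑ m, lam a m * Bq (u a) (w m) = 0 := by
      have e1 : ∀ m, lam a m * Bq (u a) (w m) = lam a m - ⟪u a, lam a m • w m⟫ := by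
        intro m
        unfold Bq
        rw [inner_smul_right]; ring
      rw [Finset.sum_congr rfl (fun m _ => e1 m), Finset.sum_sub_distrib, ← inner_sum, hs a, hc a,
        real_inner_self_eq_norm_sq, hu a]
      norm_num
    have h2 : ∑ b : Fin 4, lam a (i b) * Bq (u a) (w (i b)) =
        ∑ m ∈ Finset.univ.map ⟨i, hi⟩, lam a m * Bq (u a) (w m) := by
      rw [Finset.sum_map]; rfl
    rw [h2, ← h1]
    apply Finset.sum_le_sum_of_subset_of_nonneg (Finset.subset_univ _)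
    intro m _ hm
    have hm' : m ≠ i a := by
      intro h
      apply hm
      rw [h]
      exact Finset.mem_map.mpr ⟨a, Finset.mem_univ _, rfl⟩
    exact mul_nonneg (hpos a m hm').le (Bq_nonneg (hu a).le (hw m))
  choose k p hk hp hle heq using fun a => second (hu a) (hw (i a)) (hne a)
  have hup : ∀ a, u a ≠ p a := by
    intro a h
    have h1 := heq a
    rw [← h, Bq_self (hu a), mul_zero] at h1
    have h2 := Bq_pos (hu a).le (hw (i a)) (hne a)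
    linarith
  have L : ∀ a c, a ≠ c → 0 < lam a (i c) := fun a c hac =>
    hpos a (i c) (fun h => hac (hi h).symm)
  have hD : ∀ a, 0 < -lam a (i a) * k a := fun a => mul_pos (by linarith [hneg a]) (hk a)
  refine quad u p (fun a c => lam a (i c) * k c / (-lam a (i a) * k a)) hu hp hup ?_ ?_ ?_ ?_ ?_ ?_
  · intro a c hac
    exact div_pos (mul_pos (L a c hac) (hk c)) (hD a)
  · intro a c hac
    have h1 := hst a c hac
    have ha := hneg a
    have hc' := hneg c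
    have hka := hk a
    have hkc := hk c
    have hpp : 0 < lam a (i a) * lam c (i c) := mul_pos_of_neg_of_neg ha hc'
    have e : lam a (i c) * k c / (-lam a (i a) * k a) * (lam c (i a) * k a / (-lam c (i c) * k c)) =
        (lam a (i c) * lam c (i a)) / (lam a (i a) * lam c (i c)) := by
      have h2 : lam a (i a) ≠ 0 := ne_of_lt ha
      have h3 : lam c (i c) ≠ 0 := ne_of_lt hc'
      field_simp
    rw [e, lt_div_iff₀ hpp]
    linarith
  · have h := H 0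
    rw [Fin.sum_univ_four] at h
    exact row (hneg 0) (L 0 1 (by decide)) (L 0 2 (by decide)) (L 0 3 (by decide)) (hk 0) (heq 0)
      (hle 1 (u 0) (hu 0)) (hle 2 (u 0) (hu 0)) (hle 3 (u 0) (hu 0)) (by linarith)
  · have h := H 1
    rw [Fin.sum_univ_four] at h
    exact row (hneg 1) (L 1 0 (by decide)) (L 1 2 (by decide)) (L 1 3 (by decide)) (hk 1) (heq 1)
      (hle 0 (u 1) (hu 1)) (hle 2 (u 1) (hu 1)) (hle 3 (u 1) (hu 1)) (by linarith)
  · have h := H 2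
    rw [Fin.sum_univ_four] at h
    exact row (hneg 2) (L 2 0 (by decide)) (L 2 1 (by decide)) (L 2 3 (by decide)) (hk 2) (heq 2)
      (hle 0 (u 2) (hu 2)) (hle 1 (u 2) (hu 2)) (hle 3 (u 2) (hu 2)) (by linarith)
  · have h := H 3
    rw [Fin.sum_univ_four] at h
    exact row (hneg 3) (L 3 0 (by decide)) (L 3 1 (by decide)) (L 3 2 (by decide)) (hk 3) (heq 3)
      (hle 0 (u 3) (hu 3)) (hle 1 (u 3) (hu 3)) (hle 2 (u 3) (hu 3)) (by linarith)

theorem s_LOC : S_LOC := by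
  intro d n w c r i u lam hr hi hw hu hs hcomb hneg hpos hst hne
  have hr' : r ≠ 0 := ne_of_gt hr
  refine loc1 d n (fun m => r⁻¹ • (w m - c)) i (fun a => r⁻¹ • (u a - c)) lam hi ?_ ?_ hs ?_ hneg
    hpos hst ?_
  · intro m
    rw [norm_smul, norm_inv, Real.norm_of_nonneg hr.le, ← dist_eq_norm]
    rw [inv_mul_le_iff₀ hr]
    linarith [hw m]
  · intro a
    rw [norm_smul, norm_inv, Real.norm_of_nonneg hr.le, ← dist_eq_norm, hu a]
    field_simp
  · intro a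
    have : ∀ m, lam a m • (r⁻¹ • (w m - c)) = r⁻¹ • (lam a m • w m) - r⁻¹ • (lam a m • c) := by
      intro m
      rw [smul_comm, smul_sub, smul_sub]
    rw [Finset.sum_congr rfl (fun m _ => this m), Finset.sum_sub_distrib, ← Finset.smul_sum,
      ← Finset.smul_sum, ← Finset.sum_smul, hs a, hcomb a, one_smul, smul_sub]
  · intro a h
    apply hne a
    have h2 := smul_right_injective (E d) (inv_ne_zero hr') h
    exact sub_left_injective h2

end Pool.Agent.L7h7.GJ
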